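import Pool.Agent.Y798.OG.Part

set_option autoImplicit false

namespace Pool.Agent.Y798.OG.Fej

open Complex Filter Topology MeasureTheory UnitAddTorus NumberField IsDedekindDomain
  Pool.Agent.W540.BE Pool.Agent.TH553.RS Pool.Agent.TH553.ST Pool.Agent.Y798.FC Pool.Agent.Y798.OG

theorem pow_sub_one_le {z : ℂ} (hz : ‖z‖ = 1) (j : ℕ) : ‖z ^ j - 1‖ ≤ j * ‖z - 1‖ := by
  induction j with
  | zero => simp
  | succ j ih =>
    have h1 : z ^ (j + 1) - 1 = z ^ j * (z - 1) + (z ^ j - 1) := by ring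
    rw [h1]
    refine (norm_add_le _ _).trans ?_
    rw [norm_mul, norm_pow, hz, one_pow, one_mul]
    push_cast
    linarith

theorem re_ge {z : ℂ} (hz : ‖z‖ = 1) {n j k : ℕ} (hj : j < n) (hk : k < n) :
    1 - 4 * (n : ℝ) ^ 2 * (1 - z.re) ≤ (z ^ j * (starRingEnd ℂ) (z ^ k)).re := by
  have h1 : ‖z ^ j - z ^ k‖ ≤ 2 * n * ‖z - 1‖ := by
    have h2 : z ^ j - z ^ k = (z ^ j - 1) - (z ^ k - 1) := by ring
    rw [h2]
    refine (norm_sub_le _ _).trans ?_
    have h3 := pow_sub_one_le hz j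
    have h4 := pow_sub_one_le hz k
    have h5 : (j : ℝ) ≤ n := by exact_mod_cast hj.le
    have h6 : (k : ℝ) ≤ n := by exact_mod_cast hk.le
    have h7 := norm_nonneg (z - 1)
    nlinarith
  have hn : ∀ i : ℕ, normSq (z ^ i) = 1 := fun i => by
    rw [Complex.normSq_eq_norm_sq, norm_pow, hz, one_pow, one_pow]
  have h2 := Complex.normSq_sub (z ^ j) (z ^ k)
  rw [hn, hn, Complex.normSq_eq_norm_sq] at h2
  have h3 := Complex.normSq_sub z 1
  have h4 : normSq z = 1 := by simpa using hn 1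
  rw [h4, Complex.normSq_eq_norm_sq, map_one, map_one, mul_one] at h3
  have h5 : ‖z ^ j - z ^ k‖ ^ 2 ≤ (2 * n * ‖z - 1‖) ^ 2 :=
    pow_le_pow_left₀ (norm_nonneg _) h1 2
  rw [mul_pow, mul_pow, h3, h2] at h5
  nlinarith

theorem t : StmFej := by
  intro K _ _ U hU a ha τ hτ s hs h
  have hs2 : s * s = 1 := by rcases hs with rfl | rfl <;> norm_num
  have hz : ∀ v : HeightOneSpectrum (𝓞 K), ‖(s : ℂ) * ht τ v‖ = 1 := fun v => by
    rw [norm_mul, norm_ht, Complex.norm_real, Real.norm_eq_abs]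
    rcases hs with rfl | rfl <;> norm_num
  have hN : Sys (nm K) := sysF K
  have hba : Bd a := ⟨1, fun v => by rw [abs_of_nonneg (ha v).1]; exact (ha v).2⟩
  have hbr : ∀ v : HeightOneSpectrum (𝓞 K), |s * (ht τ v).re| ≤ 1 := fun v => by
    have h1 := Complex.abs_re_le_norm ((s : ℂ) * ht τ v)
    rw [hz, Complex.re_ofReal_mul] at h1
    exact h1
  have hbs : Bd fun v : HeightOneSpectrum (𝓞 K) => a v * (s * (ht τ v).re) := ⟨1, fun v => by
    rw [abs_mul, abs_of_nonneg (ha v).1]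
    have := hbr v
    have := ha v
    have := abs_nonneg (s * (ht τ v).re)
    nlinarith⟩
  set φ : ℕ → ℕ → HeightOneSpectrum (𝓞 K) → ℝ := fun j k v =>
    (((s : ℂ) * ht τ v) ^ j * (starRingEnd ℂ) (((s : ℂ) * ht τ v) ^ k)).re with hφ
  have hφb : ∀ j k, Bd (φ j k) := fun j k => ⟨1, fun v => by
    refine (Complex.abs_re_le_norm _).trans ?_
    rw [norm_mul, Complex.norm_conj, norm_pow, norm_pow, hz, one_pow, one_pow, one_mul]⟩
  have hφ0 : ∀ j m : ℕ, M (nm K) U (φ (j + m) j) = if m = 0 then 1 else 0 := by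
    intro j m
    have h1 : φ (j + m) j = fun v => s ^ m * (ht (m * τ) v).re := by
      funext v
      have h2 : ((s : ℂ) * ht τ v) ^ (j + m) * (starRingEnd ℂ) (((s : ℂ) * ht τ v) ^ j) =
          ((s ^ m : ℝ) : ℂ) * ht (m * τ) v := by
        have h3 : ((s : ℂ) * ht τ v) ^ j * (starRingEnd ℂ) (((s : ℂ) * ht τ v) ^ j) = 1 := by
          rw [Complex.mul_conj, Complex.normSq_eq_norm_sq, norm_pow, hz]
          simp
        calc _ = (((s : ℂ) * ht τ v) ^ j * (starRingEnd ℂ) (((s : ℂ) * ht τ v) ^ j)) *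
              ((s : ℂ) * ht τ v) ^ m := by ring
          _ = _ := by rw [h3, one_mul, mul_pow, ht_pow]; push_cast; ring
      rw [hφ]
      change (((s : ℂ) * ht τ v) ^ (j + m) * (starRingEnd ℂ) (((s : ℂ) * ht τ v) ^ j)).re = _
      rw [h2, Complex.re_ofReal_mul]
    rw [h1]
    have hbm : Bd fun v : HeightOneSpectrum (𝓞 K) => (ht (m * τ) v).re := ⟨1, fun v => by
      refine (Complex.abs_re_le_norm _).trans ?_
      rw [norm_ht]⟩
    rw [M_const_mul hN hU hbm]
    by_cases hm : m = 0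
    · subst hm
      rw [if_pos rfl, pow_zero, one_mul]
      have h4 : (fun v : HeightOneSpectrum (𝓞 K) => (ht (((0 : ℕ) : ℝ) * τ) v).re) =
          fun _ => (1 : ℝ) := by
        funext v
        rw [← ht_pow, pow_zero, Complex.one_re]
      rw [h4]
      exact M_one hN hU
    · rw [if_neg hm, M_ht hU (mul_ne_zero (by exact_mod_cast hm) hτ), mul_zero]
  have hφc : ∀ j k, φ j k = φ k j := by
    intro j k
    funext v
    rw [hφ]
    change (((s : ℂ) * ht τ v) ^ j * (starRingEnd ℂ) (((s : ℂ) * ht τ v) ^ k)).re =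
      (((s : ℂ) * ht τ v) ^ k * (starRingEnd ℂ) (((s : ℂ) * ht τ v) ^ j)).re
    rw [← Complex.conj_re (((s : ℂ) * ht τ v) ^ j * (starRingEnd ℂ) (((s : ℂ) * ht τ v) ^ k)),
      map_mul, Complex.conj_conj, mul_comm]
  have hM : ∀ j k, M (nm K) U (φ j k) = if j = k then 1 else 0 := by
    intro j k
    rcases le_total k j with hjk | hjk
    · obtain ⟨m, rfl⟩ := Nat.exists_eq_add_of_le hjk
      rw [hφ0]
      by_cases hm : m = 0
      · simp [hm]
      · rw [if_neg hm, if_neg (by omega)]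
    · obtain ⟨m, rfl⟩ := Nat.exists_eq_add_of_le hjk
      rw [hφc, hφ0]
      by_cases hm : m = 0
      · simp [hm]
      · rw [if_neg hm, if_neg (by omega)]
  have hmain : ∀ n : ℕ, (n : ℝ) ^ 2 * M (nm K) U a ≤ n := by
    intro n
    have hsb : ∀ j ∈ Finset.range n, Bd fun v => ∑ k ∈ Finset.range n, φ j k v := fun j _ => by
      refine ⟨n, fun v => ?_⟩
      refine (Finset.abs_sum_le_sum_abs _ _).trans ?_
      refine (Finset.sum_le_card_nsmul _ _ 1 fun k _ => ?_).trans (by simp)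
      refine (Complex.abs_re_le_norm _).trans ?_
      rw [norm_mul, Complex.norm_conj, norm_pow, norm_pow, hz, one_pow, one_pow, one_mul]
    have h1 : M (nm K) U (fun v => ∑ j ∈ Finset.range n, ∑ k ∈ Finset.range n, φ j k v) = n := by
      rw [M_sum hN hU _ hsb]
      have h2 : ∀ j ∈ Finset.range n, M (nm K) U (fun v => ∑ k ∈ Finset.range n, φ j k v) = 1 := by
        intro j hj
        rw [M_sum hN hU _ (fun k _ => hφb j k), Finset.sum_congr rfl (fun k _ => hM j k),
          Finset.sum_ite_eq, if_pos hj]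
      rw [Finset.sum_congr rfl h2]
      simp
    have hbig : Bd fun v => ∑ j ∈ Finset.range n, ∑ k ∈ Finset.range n, φ j k v := by
      refine ⟨n * n, fun v => ?_⟩
      refine (Finset.abs_sum_le_sum_abs _ _).trans ?_
      refine (Finset.sum_le_card_nsmul _ _ (n : ℝ) fun j _ => ?_).trans (by simp)
      refine (Finset.abs_sum_le_sum_abs _ _).trans ?_
      refine (Finset.sum_le_card_nsmul _ _ 1 fun k _ => ?_).trans (by simp)
      refine (Complex.abs_re_le_norm _).trans ?_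
      rw [norm_mul, Complex.norm_conj, norm_pow, norm_pow, hz, one_pow, one_pow, one_mul]
    have hb1 : Bd fun v => ((n : ℝ) ^ 2 - 4 * (n : ℝ) ^ 4) * a v := by
      refine ⟨|(n : ℝ) ^ 2 - 4 * (n : ℝ) ^ 4|, fun v => ?_⟩
      rw [abs_mul, abs_of_nonneg (ha v).1]
      exact mul_le_of_le_one_right (abs_nonneg _) (ha v).2
    have hb2 : Bd fun v : HeightOneSpectrum (𝓞 K) =>
        (4 * (n : ℝ) ^ 4) * (a v * (s * (ht τ v).re)) := by
      refine ⟨4 * (n : ℝ) ^ 4, fun v => ?_⟩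
      rw [abs_mul, abs_of_nonneg (by positivity : (0 : ℝ) ≤ 4 * (n : ℝ) ^ 4)]
      refine mul_le_of_le_one_right (by positivity) ?_
      rw [abs_mul, abs_of_nonneg (ha v).1]
      have := hbr v
      have := ha v
      have := abs_nonneg (s * (ht τ v).re)
      nlinarith
    have hb3 : Bd fun v : HeightOneSpectrum (𝓞 K) => ((n : ℝ) ^ 2 - 4 * (n : ℝ) ^ 4) * a v +
        (4 * (n : ℝ) ^ 4) * (a v * (s * (ht τ v).re)) := by
      obtain ⟨C1, h1⟩ := hb1
      obtain ⟨C2, h2⟩ := hb2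
      exact ⟨C1 + C2, fun v => (abs_add_le _ _).trans (add_le_add (h1 v) (h2 v))⟩
    have h2 := M_mono hN hU hb3 hbig (fun v => by
      have h3 : (n : ℝ) ^ 2 - 4 * (n : ℝ) ^ 4 * (1 - s * (ht τ v).re) ≤
          ∑ j ∈ Finset.range n, ∑ k ∈ Finset.range n, φ j k v := by
        have h4 : ∀ j ∈ Finset.range n, (n : ℝ) * (1 - 4 * (n : ℝ) ^ 2 * (1 - s * (ht τ v).re)) ≤
            ∑ k ∈ Finset.range n, φ j k v := by
          intro j hj
          have h5 := Finset.card_nsmul_le_sum (Finset.range n) (fun k => φ j k v)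
            (1 - 4 * (n : ℝ) ^ 2 * (1 - s * (ht τ v).re)) (fun k hk => by
              have h6 := re_ge (hz v) (Finset.mem_range.1 hj) (Finset.mem_range.1 hk)
              rw [Complex.re_ofReal_mul] at h6
              exact h6)
          rwa [Finset.card_range, nsmul_eq_mul] at h5
        have h5 := Finset.card_nsmul_le_sum (Finset.range n)
          (fun j => ∑ k ∈ Finset.range n, φ j k v) _ h4
        rw [Finset.card_range, nsmul_eq_mul] at h5
        calc _ = (n : ℝ) * ((n : ℝ) * (1 - 4 * (n : ℝ) ^ 2 * (1 - s * (ht τ v).re))) := by ring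
          _ ≤ _ := h5
      have h4 : (0 : ℝ) ≤ ∑ j ∈ Finset.range n, ∑ k ∈ Finset.range n, φ j k v := by
        have h5 : ∑ j ∈ Finset.range n, ∑ k ∈ Finset.range n, φ j k v =
            normSq (∑ j ∈ Finset.range n, ((s : ℂ) * ht τ v) ^ j) := by
          have h6 : ((normSq (∑ j ∈ Finset.range n, ((s : ℂ) * ht τ v) ^ j) : ℝ) : ℂ) =
              ∑ j ∈ Finset.range n, ∑ k ∈ Finset.range n,
                ((s : ℂ) * ht τ v) ^ j * (starRingEnd ℂ) (((s : ℂ) * ht τ v) ^ k) := by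
            rw [← Complex.mul_conj, map_sum, Finset.sum_mul_sum]
          have h7 := congrArg Complex.re h6
          rw [Complex.ofReal_re, Complex.re_sum] at h7
          rw [h7]
          refine Finset.sum_congr rfl fun j _ => ?_
          rw [Complex.re_sum]
        rw [h5]
        exact normSq_nonneg _
      have h5 := ha v
      rcases le_total 0 ((n : ℝ) ^ 2 - 4 * (n : ℝ) ^ 4 * (1 - s * (ht τ v).re)) with h6 | h6
      · calc _ = a v * ((n : ℝ) ^ 2 - 4 * (n : ℝ) ^ 4 * (1 - s * (ht τ v).re)) := by ring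
          _ ≤ 1 * ((n : ℝ) ^ 2 - 4 * (n : ℝ) ^ 4 * (1 - s * (ht τ v).re)) :=
            mul_le_mul_of_nonneg_right h5.2 h6
          _ ≤ _ := by rw [one_mul]; exact h3
      · calc _ = a v * ((n : ℝ) ^ 2 - 4 * (n : ℝ) ^ 4 * (1 - s * (ht τ v).re)) := by ring
          _ ≤ 0 := mul_nonpos_of_nonneg_of_nonpos h5.1 h6
          _ ≤ _ := h4)
    rw [h1, M_add hN hU hb1 hb2, M_const_mul hN hU hba, M_const_mul hN hU hbs, h] at h2
    linarith
  have hnn : 0 ≤ M (nm K) U a := M_nonneg hN hU hba fun v => (ha v).1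
  by_contra hne
  have hpos : 0 < M (nm K) U a := lt_of_le_of_ne hnn (Ne.symm hne)
  obtain ⟨n, hn⟩ := exists_nat_gt (1 / M (nm K) U a)
  have hn0 : 0 < (n : ℝ) := lt_trans (by positivity) hn
  have h1 := hmain n
  rw [div_lt_iff₀ hpos] at hn
  have h2 : (n : ℝ) * (n * M (nm K) U a) ≤ n * 1 := by
    calc _ = (n : ℝ) ^ 2 * M (nm K) U a := by ring
      _ ≤ n := h1
      _ = _ := by ring
  have h3 := le_of_mul_le_mul_left h2 hn0
  linarith

end Pool.Agent.Y798.OG.Fej
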