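import Pool.Agent.Y798.OG.Stm2

/-! Orthogonal groups: the two components. -/

set_option autoImplicit false

namespace Pool.Agent.Y798.OG

open Filter Topology MeasureTheory UnitAddTorus Pool.Agent.Y798.FC
open Pool.Agent.Y139.ID (wordFun chiW ev es idx SD)

theorem half_add_half' : ((1 / 2 : ℝ) : UnitAddCircle) + ((1 / 2 : ℝ) : UnitAddCircle) = 0 := by
  rw [← AddCircle.coe_add]
  norm_num

theorem continuous_append {n m : ℕ} {X : Type*} [TopologicalSpace X]
    {f : X → Fin n → UnitAddCircle} {g : X → Fin m → UnitAddCircle} (hf : Continuous f)
    (hg : Continuous g) : Continuous fun x => (Fin.append (f x) (g x) : Fin (n + m) → UnitAddCircle) := by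
  refine continuous_pi fun j => ?_
  refine Fin.addCases (fun i => ?_) (fun i => ?_) j
  · simp only [Fin.append_left]
    exact (continuous_apply i).comp hf
  · simp only [Fin.append_right]
    exact (continuous_apply i).comp hg

theorem continuous_cons {n : ℕ} {X : Type*} [TopologicalSpace X] (c : UnitAddCircle)
    {f : X → Fin n → UnitAddCircle} (hf : Continuous f) :
    Continuous fun x => (Fin.cons c (f x) : Fin (n + 1) → UnitAddCircle) := by
  refine continuous_pi fun j => ?_
  refine Fin.cases ?_ (fun i => ?_) j
  · simp only [Fin.cons_zero]
    exact continuous_const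
  · simp only [Fin.cons_succ]
    exact (continuous_apply i).comp hf

theorem continuous_pos {m : ℕ} : Continuous (pos : UnitAddTorus (Fin (m + 1)) → _) :=
  continuous_append continuous_id continuous_neg

theorem continuous_neg' {m : ℕ} : Continuous (neg : UnitAddTorus (Fin m) → _) :=
  continuous_append (continuous_cons _ continuous_id) (continuous_cons _ continuous_neg)

theorem continuous_posO {m : ℕ} : Continuous (posO : UnitAddTorus (Fin m) → _) :=
  continuous_cons _ (continuous_append continuous_id continuous_neg)

theorem continuous_negO {m : ℕ} : Continuous (negO : UnitAddTorus (Fin m) → _) :=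
  continuous_pi fun j => ((continuous_apply j).comp continuous_posO).add continuous_const

/-- the components of `O(2m+2)`: `true` is the component of the identity -/
noncomputable def evenP (hC : StmC) (hD : StmD) (hE : StmEq) (m : ℕ) :
    Bool → Part ((m + 1) + (m + 1))
  | true =>
    { r := m + 1
      emb := pos
      ret := fun z j => z (Fin.castAdd (m + 1) j)
      cemb := continuous_pos
      cret := continuous_pi fun j => continuous_apply _
      ret_emb := fun x => by
        funext j
        simp only [pos, Fin.append_left]
      sd := (hE m).1
      equi := (hE m).2.2.2.2.1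
      Φ := dRoots (m + 1)
      ne_zero := (hD m).1
      inv := (hD m).2.1
      κ := 1
      κ_pos := one_pos }
  | false =>
    { r := m
      emb := neg
      ret := fun z j => z (Fin.castAdd (m + 1) j.succ)
      cemb := continuous_neg'
      cret := continuous_pi fun j => continuous_apply _
      ret_emb := fun x => by
        funext j
        simp only [neg, Fin.append_left, Fin.cons_succ]
      sd := (hE m).2.1
      equi := (hE m).2.2.2.2.2.1
      Φ := sympRoots m
      ne_zero := (hC m).ne_zero
      inv := (hC m).inv
      κ := 2
      κ_pos := two_pos }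

/-- the components of `O(2m+1)` -/
noncomputable def oddP (hB : StmB) (hE : StmEq) (m : ℕ) : Bool → Part (m + m + 1)
  | true =>
    { r := m
      emb := posO
      ret := fun z j => z (Fin.castAdd m j).succ
      cemb := continuous_posO
      cret := continuous_pi fun j => continuous_apply _
      ret_emb := fun x => by
        funext j
        simp only [posO, Fin.cons_succ, Fin.append_left]
      sd := (hE m).2.2.1
      equi := (hE m).2.2.2.2.2.2
      Φ := bRoots m
      ne_zero := (hB m).ne_zero
      inv := (hB m).inv
      κ := 2
      κ_pos := two_pos }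
  | false =>
    { r := m
      emb := negO
      ret := fun z j => z (Fin.castAdd m j).succ + ((1 / 2 : ℝ) : UnitAddCircle)
      cemb := continuous_negO
      cret := continuous_pi fun j => (continuous_apply _).add continuous_const
      ret_emb := fun x => by
        funext j
        simp only [negO, posO, Fin.cons_succ, Fin.append_left]
        rw [add_assoc, half_add_half', add_zero]
      sd := (hE m).2.2.2.1
      equi := fun w hw x => by
        obtain ⟨σ, hσ⟩ := (hE m).2.2.2.2.2.2 w hw x
        refine ⟨σ, fun j => ?_⟩
        simp only [negO]
        rw [hσ]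
      Φ := bRoots m
      ne_zero := (hB m).ne_zero
      inv := (hB m).inv
      κ := 2
      κ_pos := two_pos }

theorem alg_even (hC : StmC) (hD : StmD) (hE : StmEq) (hA : StmAlg) (m : ℕ) :
    Alg (evenP hC hD hE m) := by
  intro i μ
  cases i with
  | true =>
    obtain ⟨G, hG, h1, h2⟩ := (hA m).1 μ
    refine ⟨G, hG, fun x => ?_, fun j hj x => ?_⟩
    · change G (pos x) = ((1 : ℕ) : ℂ) * orb (sympW (m + 1)) μ x
      rw [h1]
      simp
    · cases j with
      | true => exact absurd rfl hj
      | false => exact h2 x
  | false =>
    obtain ⟨G, hG, h1, h2⟩ := (hA m).2 μ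
    refine ⟨G, hG, fun x => ?_, fun j hj x => ?_⟩
    · change G (neg x) = ((2 : ℕ) : ℂ) * orb (sympW m) μ x
      rw [h2]
      norm_num
    · cases j with
      | true => exact h1 x
      | false => exact absurd rfl hj

theorem alg_odd (hB : StmB) (hE : StmEq) (hA : StmAlgB) (m : ℕ) : Alg (oddP hB hE m) := by
  intro i μ
  cases i with
  | true =>
    obtain ⟨G, hG, h1, h2⟩ := (hA m μ).1
    refine ⟨G, hG, fun x => ?_, fun j hj x => ?_⟩
    · change G (posO x) = ((2 : ℕ) : ℂ) * orb (sympW m) μ x
      rw [h1]
      norm_num
    · cases j with
      | true => exact absurd rfl hj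
      | false => exact h2 x
  | false =>
    obtain ⟨G, hG, h1, h2⟩ := (hA m μ).2
    refine ⟨G, hG, fun x => ?_, fun j hj x => ?_⟩
    · change G (negO x) = ((2 : ℕ) : ℂ) * orb (sympW m) μ x
      rw [h2]
      norm_num
    · cases j with
      | true => exact h1 x
      | false => exact absurd rfl hj

end Pool.Agent.Y798.OG
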