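import Pool.Agent.Y798.OG.Tau
import Pool.Agent.Y798.FC.Stm4

/-! Orthogonal groups: the joint law with the Frobenius elements; statements of the jobs. -/

set_option autoImplicit false

namespace Pool.Agent.Y798.OG

open Complex Filter Topology MeasureTheory UnitAddTorus NumberField IsDedekindDomain
  Pool.Agent.W540.BE Pool.Agent.TH553.RS Pool.Agent.TH553.ST Pool.Agent.Y798.FC ComplexConjugate
  Pool.Agent.Y798.JL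
open Pool.Agent.Y139.ID (wordFun chiW ev es idx SD IsHaarOn annih avg trig)

/-! ### One component, with a weight -/

section
variable {K : Type} [Field K] [NumberField K] {r : ℕ}

/-- the law `(κ |W|)⁻¹ dens Φ` for the weight `a`, along `U` -/
def WLaw (W : Subgroup (Auts (Fin r))) (Φ : Finset (Fin r → ℤ)) (κ : ℕ)
    (θ : HeightOneSpectrum (𝓞 K) → UnitAddTorus (Fin r)) (a : HeightOneSpectrum (𝓞 K) → ℝ)
    (U : Ultrafilter ℝ) : Prop :=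
  ∀ f : UnitAddTorus (Fin r) → ℂ, Continuous f → (∀ w ∈ W, ∀ x, f (act w x) = f x) →
    Tendsto (cE fun v => (a v : ℂ) * f (θ v)) (U : Filter ℝ)
      (𝓝 (((κ : ℂ) * (Nat.card W : ℂ))⁻¹ * ∫ x, f x * (dens Φ x : ℂ) ∂(vol (Fin r))))

end

/-- job OG-FUNW -/
def StmFunW : Prop := ∀ (K : Type) [Field K] [NumberField K] (r : ℕ)
  (W : Subgroup (Auts (Fin r))) [Fintype W] (Φ : Finset (Fin r → ℤ)),
  (∀ w ∈ W, ∀ x, dens Φ (act w x) = dens Φ x) → ∀ κ : ℕ, 0 < κ →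
  ∀ (θ : HeightOneSpectrum (𝓞 K) → UnitAddTorus (Fin r)) (a : HeightOneSpectrum (𝓞 K) → ℝ),
  (∀ v, 0 ≤ a v ∧ a v ≤ 1) → ∀ U : Ultrafilter ℝ, (U : Filter ℝ) ≤ 𝓝[>] 0 →
  WLaw W Φ κ θ a U →
  ∀ (h : HeightOneSpectrum (𝓞 K) → ℂ) (B : ℝ), (∀ v, ‖h v‖ ≤ B) → ∀ m : ℝ,
    Tendsto (cE fun v => ((a v * ‖h v‖ ^ 2 : ℝ) : ℂ)) (U : Filter ℝ) (𝓝 (m : ℂ)) →
    ∃ N : C(UnitAddTorus (Fin r), ℂ) →ₗ[ℂ] ℂ,
      (∀ f : C(UnitAddTorus (Fin r), ℂ),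
        Tendsto (cE fun v => (a v : ℂ) * (sym W f (θ v) * h v)) (U : Filter ℝ) (𝓝 (N f))) ∧
      (∀ f : C(UnitAddTorus (Fin r), ℂ),
        ‖N f‖ ^ 2 ≤ m * (Nat.card W : ℝ) / κ * ∫ x, ‖f x‖ ^ 2 * dens Φ x ∂(vol (Fin r))) ∧
      ∀ ψ : UnitAddTorus (Fin r) → ℝ, ∀ hψ : Continuous ψ, (∀ x, 0 ≤ ψ x) →
        ‖N ⟨fun x => (ψ x : ℂ), Complex.continuous_ofReal.comp hψ⟩‖ ≤
          B / κ * ∫ x, ψ x * dens Φ x ∂(vol (Fin r))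

/-- job OG-TRANSW -/
def StmTransW : Prop := ∀ (K : Type) [Field K] [NumberField K] (r : ℕ)
  (W : Subgroup (Auts (Fin r))) (Φ : Finset (Fin r → ℤ)), Finite W → (∀ α ∈ Φ, α ≠ 0) →
  ∀ κ : ℕ, 0 < κ →
  ∀ (θ : HeightOneSpectrum (𝓞 K) → UnitAddTorus (Fin r)) (a : HeightOneSpectrum (𝓞 K) → ℝ),
  (∀ v, 0 ≤ a v ∧ a v ≤ 1) → ∀ U : Ultrafilter ℝ, (U : Filter ℝ) ≤ 𝓝[>] 0 →
  WLaw W Φ κ θ a U →
  ∀ (h : HeightOneSpectrum (𝓞 K) → ℂ) (S : Finset ℝ), (∀ v, ‖h v‖ ^ 2 ∈ S) →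
  ∀ T : UnitAddTorus (Fin r) → ℂ, Continuous T → (∀ w ∈ W, ∀ x, T (act w x) = T x) →
    Tendsto (cE fun v => ((a v * ‖h v - T (θ v)‖ ^ 2 : ℝ) : ℂ)) (U : Filter ℝ) (𝓝 0) →
    ∀ x, ‖T x‖ ^ 2 ∈ S

/-- job OG-COMP: the projection of `h` to the functions of `θ` -/
def StmComp : Prop := ∀ (K : Type) [Field K] [NumberField K] (r : ℕ)
  (W : Subgroup (Auts (Fin r))) (Φ : Finset (Fin r → ℤ)), Finite W → (∀ α ∈ Φ, α ≠ 0) →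
  (∀ w ∈ W, ∀ x, dens Φ (act w x) = dens Φ x) → ∀ κ : ℕ, 0 < κ →
  ∀ (θ : HeightOneSpectrum (𝓞 K) → UnitAddTorus (Fin r)) (a : HeightOneSpectrum (𝓞 K) → ℝ),
  (∀ v, 0 ≤ a v ∧ a v ≤ 1) → ∀ U : Ultrafilter ℝ, (U : Filter ℝ) ≤ 𝓝[>] 0 →
  WLaw W Φ κ θ a U →
  ∀ (h : HeightOneSpectrum (𝓞 K) → ℂ) (B : ℝ), (∀ v, ‖h v‖ ≤ B) →
    (∀ μ, ∃ n : ℤ, Tendsto (cE fun v => (a v : ℂ) * ((κ : ℂ) * orb W μ (θ v)) * h v)
      (U : Filter ℝ) (𝓝 (n : ℂ))) →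
    ∃ d : (Fin r → ℤ) →₀ ℤ, (∀ w ∈ W, ∀ x, trig d (act w x) = trig d x) ∧
      (∀ w ∈ W, ∀ μ, d (w μ) = d μ) ∧
      ∀ f : UnitAddTorus (Fin r) → ℂ, Continuous f → (∀ w ∈ W, ∀ x, f (act w x) = f x) →
        Tendsto (cE fun v => (a v : ℂ) * f (θ v) * h v) (U : Filter ℝ)
          (𝓝 (((κ : ℂ) * (Nat.card W : ℂ))⁻¹ *
            ∫ x, f x * (trig d x * (dens Φ x : ℂ)) ∂(vol (Fin r))))

/-- job OG-DIFF: the mean of the square of the distance -/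
def StmDiff : Prop := ∀ (K : Type) [Field K] [NumberField K] (r : ℕ)
  (W : Subgroup (Auts (Fin r))) (Φ : Finset (Fin r → ℤ)) (κ : ℕ)
  (θ : HeightOneSpectrum (𝓞 K) → UnitAddTorus (Fin r)) (a : HeightOneSpectrum (𝓞 K) → ℝ),
  (∀ v, 0 ≤ a v ∧ a v ≤ 1) → ∀ U : Ultrafilter ℝ, (U : Filter ℝ) ≤ 𝓝[>] 0 →
  WLaw W Φ κ θ a U →
  ∀ (h : HeightOneSpectrum (𝓞 K) → ℂ) (B : ℝ), (∀ v, ‖h v‖ ≤ B) → ∀ m : ℝ,
    Tendsto (cE fun v => ((a v * ‖h v‖ ^ 2 : ℝ) : ℂ)) (U : Filter ℝ) (𝓝 (m : ℂ)) →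
  ∀ T : UnitAddTorus (Fin r) → ℂ, Continuous T → (∀ w ∈ W, ∀ x, T (act w x) = T x) →
    Tendsto (cE fun v => (a v : ℂ) * conj (T (θ v)) * h v) (U : Filter ℝ)
      (𝓝 (((κ : ℂ) * (Nat.card W : ℂ))⁻¹ *
        ∫ x, conj (T x) * (T x * (dens Φ x : ℂ)) ∂(vol (Fin r)))) →
    Tendsto (cE fun v => ((a v * ‖h v - T (θ v)‖ ^ 2 : ℝ) : ℂ)) (U : Filter ℝ)
      (𝓝 ((m - ((κ : ℝ) * (Nat.card W : ℝ))⁻¹ * ∫ x, ‖T x‖ ^ 2 * dens Φ x ∂(vol (Fin r)) : ℝ) : ℂ)) ∧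
    0 ≤ m - ((κ : ℝ) * (Nat.card W : ℝ))⁻¹ * ∫ x, ‖T x‖ ^ 2 * dens Φ x ∂(vol (Fin r))

/-! ### Two components -/

/-- job OG-CL: the laws on the components -/
def StmCl : Prop := ∀ (N : ℕ) (I : Type) [Fintype I] (P : I → Part N), Alg P →
  ∀ (K : Type) [Field K] [NumberField K] (t : HeightOneSpectrum (𝓞 K) → UnitAddTorus (Fin N)),
    (∀ v, t v ∈ classes P) → ∀ U : Ultrafilter ℝ, (U : Filter ℝ) ≤ 𝓝[>] 0 →
    (∀ (r : ℕ) (k : Fin r → ℕ), (∀ j, k j ≤ N) →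
      Tendsto (cE fun v => chiW k (t v)) (U : Filter ℝ) (𝓝 (hm P (chiW k)))) →
    ∀ i, WLaw (sympW (P i).r) (P i).Φ (P i).κ (fun v => (P i).ret (t v)) (ind P t i) U

/-- every integral invariant function on a component is an integral combination of traces -/
def Sur {N : ℕ} (P : Bool → Part N) : Prop := ∀ i, ∀ μ : Fin (P i).r → ℤ,
  ∃ G ∈ Submodule.span ℤ (wordFun N), ∀ x, G ((P i).emb x) = msum (sympW (P i).r) μ x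

/-- the determinant -/
def Det {N : ℕ} (P : Bool → Part N) : Prop :=
  (∀ x, es N ((P true).emb x) = 1) ∧ ∀ x, es N ((P false).emb x) = -1

/-- both components have mass one half -/
def Mass {N : ℕ} (P : Bool → Part N) : Prop :=
  ∀ i, 2 * ∫ x, dens (P i).Φ x ∂(vol (Fin (P i).r)) = (P i).κ * Nat.card (sympW (P i).r)

/-- job OG-ONEP: the twisted means vanish -/
def StmOneP : Prop := ∀ (N : ℕ) (P : Bool → Part N), Alg P → Sur P → Det P → Mass P →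
  ∀ (K : Type) [Field K] [NumberField K] (t : HeightOneSpectrum (𝓞 K) → UnitAddTorus (Fin N)),
    (∀ v, t v ∈ classes P) →
    (∀ (r : ℕ) (k : Fin r → ℕ), (∀ j, k j ≤ N) →
      Tendsto (cE fun v => chiW k (t v)) (𝓝[>] 0) (𝓝 (hm P (chiW k)))) →
    ∀ (h : HeightOneSpectrum (𝓞 K) → ℂ) (S : Finset ℝ), (∀ v, ‖h v‖ ^ 2 ∈ S) →
      Tendsto (cE fun v => ((‖h v‖ ^ 2 : ℝ) : ℂ)) (𝓝[>] 0) (𝓝 1) →
      Tendsto (cE h) (𝓝[>] 0) (𝓝 0) →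
      Tendsto (cE fun v => es N (t v) * h v) (𝓝[>] 0) (𝓝 0) →
      (∀ (r : ℕ) (k : Fin r → ℕ), (∀ j, k j ≤ N) →
        ∃ n : ℤ, Tendsto (cE fun v => chiW k (t v) * h v) (𝓝[>] 0) (𝓝 (n : ℂ))) →
      ∀ (r : ℕ) (k : Fin r → ℕ), (∀ j, k j ≤ N) →
        Tendsto (cE fun v => chiW k (t v) * h v) (𝓝[>] 0) (𝓝 0)

/-- job OG-MIXP: mean values of products of class functions on `O(N)` and on a finite group -/
def StmMixP : Prop := ∀ (N : ℕ) (P : Bool → Part N), Alg P → Det P → Mass P →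
  ∀ (K : Type) [Field K] [NumberField K] (t : HeightOneSpectrum (𝓞 K) → UnitAddTorus (Fin N)),
    (∀ v, t v ∈ classes P) →
    ∀ (Q : Type) [Group Q] [Finite Q] (q : HeightOneSpectrum (𝓞 K) → Q) (ε : Q →* ℤˣ),
    (∀ v, es N (t v) = (ε (q v) : ℤ)) → (∃ g, ε g = -1) →
    (∀ e : Q → ℂ, (∀ g k, e (k * g * k⁻¹) = e g) →
      Tendsto (mn fun v => e (q v)) atTop (𝓝 ((Nat.card Q : ℂ)⁻¹ * ∑ᶠ g, e g))) →
    (∀ (r : ℕ) (k : Fin r → ℕ), (∀ j, k j ≤ N) →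
      Tendsto (mn fun v => chiW k (t v)) atTop (𝓝 (hm P (chiW k)))) →
    (∀ (r : ℕ) (k : Fin r → ℕ), (∀ j, k j ≤ N) → ∀ (n : ℕ)
      (ψ : Q →* Matrix.unitaryGroup (Fin n) ℂ), Schur ψ → (∃ g, ψ g ≠ 1) →
      (∃ g, (ψ g : Matrix (Fin n) (Fin n) ℂ) ≠ ((ε g : ℤ) : ℂ) • (1 : Matrix (Fin n) (Fin n) ℂ)) →
      Tendsto (mn fun v => chiW k (t v) * chi ψ (q v)) atTop (𝓝 0)) →
    ∀ f : UnitAddTorus (Fin N) → ℂ, Continuous f → Sy f →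
      ∀ e : Q → ℂ, (∀ g k, e (k * g * k⁻¹) = e g) →
        Tendsto (mn fun v => f (t v) * e (q v)) atTop
          (𝓝 ((Nat.card Q : ℂ)⁻¹ * ∑ᶠ g, e g *
            (if ε g = 1 then
              2 * ((((P true).κ : ℂ) * (Nat.card (sympW (P true).r) : ℂ))⁻¹ *
                ∫ x, f ((P true).emb x) * (dens (P true).Φ x : ℂ) ∂(vol (Fin (P true).r)))
            else
              2 * ((((P false).κ : ℂ) * (Nat.card (sympW (P false).r) : ℂ))⁻¹ *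
                ∫ x, f ((P false).emb x) * (dens (P false).Φ x : ℂ) ∂(vol (Fin (P false).r))))))

/-! ### The orthogonal groups -/

/-- job OG-SURE -/
def StmSurE : Prop := ∀ m : ℕ,
  (∀ μ : Fin (m + 1) → ℤ, ∃ G ∈ Submodule.span ℤ (wordFun ((m + 1) + (m + 1))),
    ∀ x : UnitAddTorus (Fin (m + 1)), G (pos x) = msum (sympW (m + 1)) μ x) ∧
  ∀ μ : Fin m → ℤ, ∃ G ∈ Submodule.span ℤ (wordFun ((m + 1) + (m + 1))),
    ∀ y : UnitAddTorus (Fin m), G (neg y) = msum (sympW m) μ y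

/-- job OG-SURO -/
def StmSurO : Prop := ∀ (m : ℕ) (μ : Fin m → ℤ),
  (∃ G ∈ Submodule.span ℤ (wordFun (m + m + 1)),
    ∀ x : UnitAddTorus (Fin m), G (posO x) = msum (sympW m) μ x) ∧
  ∃ G ∈ Submodule.span ℤ (wordFun (m + m + 1)),
    ∀ x : UnitAddTorus (Fin m), G (negO x) = msum (sympW m) μ x

/-- job OG-DET -/
def StmDet : Prop := ∀ m : ℕ,
  (∀ x : UnitAddTorus (Fin (m + 1)), es ((m + 1) + (m + 1)) (pos x) = 1) ∧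
  (∀ y : UnitAddTorus (Fin m), es ((m + 1) + (m + 1)) (neg y) = -1) ∧
  (∀ x : UnitAddTorus (Fin m), es (m + m + 1) (posO x) = 1) ∧
  ∀ x : UnitAddTorus (Fin m), es (m + m + 1) (negO x) = -1

end Pool.Agent.Y798.OG
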