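import Pool.Agent.Y798.OG.Inst
import Pool.Agent.Y798.OG.Stm3

/-! Orthogonal groups: the components, second part. -/

set_option autoImplicit false

namespace Pool.Agent.Y798.OG

open MeasureTheory UnitAddTorus Pool.Agent.Y798.FC
open Pool.Agent.Y139.ID (wordFun es)

theorem sur_even (hC : StmC) (hD : StmD) (hE : StmEq) (hS : StmSurE) (m : ℕ) :
    Sur (evenP hC hD hE m) := by
  intro i μ
  cases i with
  | true => exact (hS m).1 μ
  | false => exact (hS m).2 μ

theorem sur_odd (hB : StmB) (hE : StmEq) (hS : StmSurO) (m : ℕ) : Sur (oddP hB hE m) := by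
  intro i μ
  cases i with
  | true => exact (hS m μ).1
  | false => exact (hS m μ).2

theorem det_even (hC : StmC) (hD : StmD) (hE : StmEq) (hT : StmDet) (m : ℕ) :
    Det (evenP hC hD hE m) := ⟨(hT m).1, (hT m).2.1⟩

theorem det_odd (hB : StmB) (hE : StmEq) (hT : StmDet) (m : ℕ) : Det (oddP hB hE m) :=
  ⟨(hT m).2.2.1, (hT m).2.2.2⟩

theorem mass_even (hC : StmC) (hD : StmD) (hE : StmEq) (m : ℕ) : Mass (evenP hC hD hE m) := by
  intro i
  cases i with
  | true =>
    change 2 * ∫ x, dens (dRoots (m + 1)) x ∂(vol (Fin (m + 1))) =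
      ((1 : ℕ) : ℝ) * Nat.card (sympW (m + 1))
    rw [(hD m).2.2, Nat.cast_one, one_mul]
  | false =>
    change 2 * ∫ x, dens (sympRoots m) x ∂(vol (Fin m)) = ((2 : ℕ) : ℝ) * Nat.card (sympW m)
    rw [(hC m).mass]
    norm_num

theorem mass_odd (hB : StmB) (hE : StmEq) (m : ℕ) : Mass (oddP hB hE m) := by
  intro i
  cases i with
  | true =>
    change 2 * ∫ x, dens (bRoots m) x ∂(vol (Fin m)) = ((2 : ℕ) : ℝ) * Nat.card (sympW m)
    rw [(hB m).mass]
    norm_num
  | false =>
    change 2 * ∫ x, dens (bRoots m) x ∂(vol (Fin m)) = ((2 : ℕ) : ℝ) * Nat.card (sympW m)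
    rw [(hB m).mass]
    norm_num

end Pool.Agent.Y798.OG
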