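import Pool.Agent.Y798.OG.Stm3
import Pool.Agent.Y798.FC.Twist

/-! Orthogonal groups: the joint law with the Frobenius elements. -/

set_option autoImplicit false
set_option linter.unusedSectionVars false

namespace Pool.Agent.Y798.OG

open Complex Filter Topology MeasureTheory UnitAddTorus NumberField IsDedekindDomain
  Pool.Agent.W540.BE Pool.Agent.TH553.RS Pool.Agent.TH553.ST Pool.Agent.Y798.FC ComplexConjugate
  Pool.Agent.Y798.JL Pool.Agent.W401.Cheb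
open Pool.Agent.Y139.ID (wordFun chiW ev es idx SD IsHaarOn annih avg trig chiW_eq_sum norm_term)

section
variable {Q : Type} [Group Q]

theorem unit_cases (u : ℤˣ) : (((u : ℤ) : ℂ) = 1) ∨ (((u : ℤ) : ℂ) = -1) := by
  rcases Int.units_eq_one_or u with rfl | rfl
  · left; simp
  · right; simp

/-- the twist of a representation by a quadratic character -/
noncomputable def tw (ε : Q →* ℤˣ) {n : ℕ} (ψ : Q →* Matrix.unitaryGroup (Fin n) ℂ) :
    Q →* Matrix.unitaryGroup (Fin n) ℂ where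
  toFun g := ⟨((ε g : ℤ) : ℂ) • (ψ g : Matrix (Fin n) (Fin n) ℂ), by
    rw [Matrix.mem_unitaryGroup_iff, star_smul, smul_mul_assoc, mul_smul_comm, smul_smul,
      Matrix.mem_unitaryGroup_iff.1 (ψ g).2]
    rcases unit_cases (ε g) with h | h <;> rw [h] <;> simp⟩
  map_one' := by
    apply Subtype.ext
    simp
  map_mul' g h := by
    apply Subtype.ext
    change ((ε (g * h) : ℤ) : ℂ) • (ψ (g * h) : Matrix (Fin n) (Fin n) ℂ) =
      (((ε g : ℤ) : ℂ) • (ψ g : Matrix (Fin n) (Fin n) ℂ)) *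
        (((ε h : ℤ) : ℂ) • (ψ h : Matrix (Fin n) (Fin n) ℂ))
    rw [map_mul, map_mul, smul_mul_assoc, mul_smul_comm, smul_smul]
    push_cast
    rfl

theorem tw_coe (ε : Q →* ℤˣ) {n : ℕ} (ψ : Q →* Matrix.unitaryGroup (Fin n) ℂ) (g : Q) :
    (tw ε ψ g : Matrix (Fin n) (Fin n) ℂ) =
      ((ε g : ℤ) : ℂ) • (ψ g : Matrix (Fin n) (Fin n) ℂ) := rfl

theorem chi_tw (ε : Q →* ℤˣ) {n : ℕ} (ψ : Q →* Matrix.unitaryGroup (Fin n) ℂ) (g : Q) :
    chi (tw ε ψ) g = ((ε g : ℤ) : ℂ) * chi ψ g := by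
  unfold chi
  rw [tw_coe, Matrix.trace_smul, smul_eq_mul]

theorem schur_tw {ε : Q →* ℤˣ} {n : ℕ} {ψ : Q →* Matrix.unitaryGroup (Fin n) ℂ} (h : Schur ψ) :
    Schur (tw ε ψ) := by
  intro A hA
  refine h A fun g => ?_
  have h1 := hA g
  rw [tw_coe, smul_mul_assoc, mul_smul_comm] at h1
  rcases unit_cases (ε g) with h2 | h2
  · rw [h2, one_smul, one_smul] at h1
    exact h1
  · rw [h2, neg_smul, neg_smul, one_smul, one_smul] at h1
    exact neg_injective h1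

theorem nt_tw {ε : Q →* ℤˣ} {n : ℕ} {ψ : Q →* Matrix.unitaryGroup (Fin n) ℂ}
    (h : ∃ g, (ψ g : Matrix (Fin n) (Fin n) ℂ) ≠ ((ε g : ℤ) : ℂ) •
      (1 : Matrix (Fin n) (Fin n) ℂ)) : ∃ g, tw ε ψ g ≠ 1 := by
  obtain ⟨g, hg⟩ := h
  refine ⟨g, fun h1 => hg ?_⟩
  have h2 : ((ε g : ℤ) : ℂ) • (ψ g : Matrix (Fin n) (Fin n) ℂ) = 1 := congrArg Subtype.val h1
  rw [← h2, smul_smul]
  rcases unit_cases (ε g) with h3 | h3 <;> rw [h3] <;> simp

end

section
variable {K : Type} [Field K] [NumberField K] {σ : HeightOneSpectrum (𝓞 K) → GK K}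
  {U : Subgroup (GK K)} [U.Normal] {N : ℕ} {P : Bool → Part N}
  {t : HeightOneSpectrum (𝓞 K) → UnitAddTorus (Fin N)}

/-- the twisted Euler product of a word -/
noncomputable def wordTw (t : HeightOneSpectrum (𝓞 K) → UnitAddTorus (Fin N)) {n : ℕ}
    (A : HeightOneSpectrum (𝓞 K) → Matrix (Fin n) (Fin n) ℂ) {r : ℕ} (k : Fin r → ℕ) : ℂ → ℂ :=
  eulerT (idx N k) (fun v S => ∏ j, ∏ i ∈ S j, ev (t v) i) A

/-- **The twisted averages vanish.** -/
theorem twist_word (hone : StmOneP) (hblk : StmBlk) (halg : Alg P) (hsur : Sur P) (hdet : Det P)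
    (hmass : Mass P) (htc : ∀ v, t v ∈ classes P)
    (hlaw : ∀ (r : ℕ) (k : Fin r → ℕ), (∀ j, k j ≤ N) →
      Tendsto (cE fun v => chiW k (t v)) (𝓝[>] 0) (𝓝 (hm P (chiW k))))
    (hσ : ∀ v, IsFrob v (σ v)) (hU : IsOpen (U : Set (GK K))) (ε : GK K ⧸ U →* ℤˣ)
    (hε : ∀ v, es N (t v) = ((ε (QuotientGroup.mk (σ v)) : ℤ) : ℂ)) {n : ℕ}
    {ψ : GK K ⧸ U →* Matrix.unitaryGroup (Fin n) ℂ} (hs : Schur ψ) (hnt : ∃ g, ψ g ≠ 1)
    (hnε : ∃ g, (ψ g : Matrix (Fin n) (Fin n) ℂ) ≠ ((ε g : ℤ) : ℂ) •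
      (1 : Matrix (Fin n) (Fin n) ℂ))
    (hcont : ∀ (r : ℕ) (k : Fin r → ℕ), (∀ j, k j ≤ N) → ∀ τ : ℝ, ContAt (wordTw t
      (fun v => (ψ (QuotientGroup.mk (σ v)) : Matrix (Fin n) (Fin n) ℂ)) k) (1 + τ * Complex.I))
    {r : ℕ} (k : Fin r → ℕ) (hk : ∀ j, k j ≤ N) :
    Tendsto (mn fun v => chiW k (t v) * chi ψ (QuotientGroup.mk (σ v))) atTop (𝓝 0) := by
  classical
  have hfin : Finite (GK K ⧸ U) := Subgroup.quotient_finite_of_isOpen _ hU
  have hn : n ≠ 0 := by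
    rintro rfl
    obtain ⟨g, hg⟩ := hnt
    exact hg (Subtype.ext (Subsingleton.elim _ _))
  have hb := fun (r : ℕ) (k : Fin r → ℕ) => hblk K (Fin r → Finset (Fin N)) (idx N k)
    (fun v S => ∏ j, ∏ i ∈ S j, ev (t v) i)
    (fun _ _ _ => norm_term _ _) n
    (fun v => (ψ (QuotientGroup.mk (σ v)) : Matrix (Fin n) (Fin n) ℂ)) (fun v => (ψ _).2)
  -- the set of values
  set S : Finset ℝ := (Set.finite_range fun q : GK K ⧸ U => ‖chi ψ q‖ ^ 2).toFinset with hS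
  have hzero : ∀ (τ : ℝ) (r : ℕ) (k : Fin r → ℕ), (∀ j, k j ≤ N) →
      Tendsto (cE fun v => chiW k (t v) * (chi ψ (QuotientGroup.mk (σ v)) * ht τ v)) (𝓝[>] 0)
        (𝓝 0) := by
    intro τ
    refine hone N P halg hsur hdet hmass K t htc hlaw
      (fun v => chi ψ (QuotientGroup.mk (σ v)) * ht τ v) S (fun v => ?_) ?_ ?_ ?_
      (fun r k hk => ?_)
    · rw [norm_mul, norm_ht, mul_one, hS, Set.Finite.mem_toFinset]
      exact ⟨_, rfl⟩
    · have h1 := cE_of_mn_real (t := fun v => ‖chi ψ (QuotientGroup.mk (σ v))‖ ^ 2)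
        (B := (n : ℝ) ^ 2) (fun v => by
          rw [abs_of_nonneg (sq_nonneg _)]
          exact pow_le_pow_left₀ (norm_nonneg _) (norm_chi _ _) 2) (c := 1) (by
          rw [Complex.ofReal_one]
          exact frob_sq hσ hU hs hn)
      rw [Complex.ofReal_one] at h1
      refine cE_congr_lim (fun v => ?_) h1
      rw [norm_mul, norm_ht, mul_one]
    · exact cE_zero_of_mn (B := n) (fun v => norm_chi _ _) (frob_chi hσ hU hs hnt) τ
    · have h1 := cE_zero_of_mn (B := n) (fun v => norm_chi _ _)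
        (frob_chi hσ hU (schur_tw (ε := ε) hs) (nt_tw hnε)) τ
      refine cE_congr_lim (fun v => ?_) h1
      rw [hε, chi_tw, mul_assoc]
    · obtain ⟨m, hm⟩ := (hb r k).1 τ (hcont r k hk τ)
      refine ⟨m, cE_congr_lim (fun v => ?_) hm⟩
      rw [chiW_eq_sum]
      rfl
  have h2 := (hb r k).2 (hcont r k hk) (fun τ => cE_congr_lim (fun v => by
    rw [chiW_eq_sum]
    rfl) (hzero τ r k hk))
  refine h2.congr fun N => ?_
  congr 1
  funext v
  rw [chiW_eq_sum]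
  rfl

/-- the twists of the Euler products of the words have continuations on the line -/
def ContTW (t : HeightOneSpectrum (𝓞 K) → UnitAddTorus (Fin N))
    (σ : HeightOneSpectrum (𝓞 K) → GK K) : Prop :=
  ∀ (n : ℕ) (ψ : GK K →* Matrix.unitaryGroup (Fin n) ℂ), n ≠ 0 → Schur ψ → (∃ g, ψ g ≠ 1) →
    (∃ U : Subgroup (GK K), IsOpen (U : Set (GK K)) ∧ ∀ u ∈ U, ψ u = 1) →
    ∀ (r : ℕ) (k : Fin r → ℕ), (∀ j, k j ≤ N) → ∀ τ : ℝ,
      ContAt (wordTw t (fun v => (ψ (σ v) : Matrix (Fin n) (Fin n) ℂ)) k) (1 + τ * Complex.I)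

/-- **The joint law.** -/
theorem joint_word (hone : StmOneP) (hblk : StmBlk) (hmix : StmMixP) (halg : Alg P)
    (hsur : Sur P) (hdet : Det P) (hmass : Mass P) (htc : ∀ v, t v ∈ classes P)
    (hσ : ∀ v, IsFrob v (σ v)) {χ : GK K →* ℤˣ} (hχ : ∃ g, χ g ≠ 1)
    (hdetσ : ∀ v, es N (t v) = ((χ (σ v) : ℤ) : ℂ)) (hcont : ContTW t σ)
    (hnat : ∀ (r : ℕ) (k : Fin r → ℕ), (∀ j, k j ≤ N) →
      Tendsto (mn fun v => chiW k (t v)) atTop (𝓝 (hm P (chiW k))))
    (hU : IsOpen (U : Set (GK K))) (hUχ : U ≤ χ.ker) {f : UnitAddTorus (Fin N) → ℂ}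
    (hf : Continuous f) (hfs : Sy f) {e : GK K ⧸ U → ℂ} (he : ∀ g k, e (k * g * k⁻¹) = e g) :
    Tendsto (mn fun v => f (t v) * e (QuotientGroup.mk (σ v))) atTop
      (𝓝 ((Nat.card (GK K ⧸ U) : ℂ)⁻¹ * ∑ᶠ g, e g *
        (if QuotientGroup.lift U χ hUχ g = 1 then
          2 * ((((P true).κ : ℂ) * (Nat.card (sympW (P true).r) : ℂ))⁻¹ *
            ∫ x, f ((P true).emb x) * (dens (P true).Φ x : ℂ) ∂(vol (Fin (P true).r)))
        else
          2 * ((((P false).κ : ℂ) * (Nat.card (sympW (P false).r) : ℂ))⁻¹ *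
            ∫ x, f ((P false).emb x) * (dens (P false).Φ x : ℂ)
              ∂(vol (Fin (P false).r)))))) := by
  have hfin : Finite (GK K ⧸ U) := Subgroup.quotient_finite_of_isOpen _ hU
  have hlaw : ∀ (r : ℕ) (k : Fin r → ℕ), (∀ j, k j ≤ N) →
      Tendsto (cE fun v => chiW k (t v)) (𝓝[>] 0) (𝓝 (hm P (chiW k))) := fun r k hk => by
    obtain ⟨C, hC⟩ := isCompact_univ.exists_bound_of_continuousOn
      (f := (chiW k : UnitAddTorus (Fin N) → ℂ))
      (Pool.Agent.Y139.ID.continuous_chiW k).continuousOn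
    exact cE_of_mn (B := C) (fun v => hC _ (Set.mem_univ _)) (hnat r k hk)
  have hε : ∀ v, es N (t v) =
      ((QuotientGroup.lift U χ hUχ (QuotientGroup.mk (σ v)) : ℤ) : ℂ) := fun v => by
    rw [QuotientGroup.lift_mk]
    exact hdetσ v
  refine hmix N P halg hdet hmass K t htc (GK K ⧸ U) (fun v => QuotientGroup.mk (σ v))
    (QuotientGroup.lift U χ hUχ) hε ?_ (fun e he => mn_frob hσ hU e fun a g => he a g) hnat
    (fun r k hk n ψ hψ hnt hnε => ?_) f hf hfs e he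
  · obtain ⟨g, hg⟩ := hχ
    refine ⟨QuotientGroup.mk g, ?_⟩
    rw [QuotientGroup.lift_mk]
    exact (Int.units_eq_one_or (χ g)).resolve_left hg
  · refine twist_word hone hblk halg hsur hdet hmass htc hlaw hσ hU
      (QuotientGroup.lift U χ hUχ) hε hψ hnt hnε (fun r k hk τ => ?_) k hk
    have hn : n ≠ 0 := by
      rintro rfl
      obtain ⟨g, hg⟩ := hnt
      exact hg (Subtype.ext (Subsingleton.elim _ _))
    exact hcont n (ψ.comp (QuotientGroup.mk' U)) hn (fun A hA => hψ A fun g => by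
        obtain ⟨g', rfl⟩ := QuotientGroup.mk'_surjective U g
        exact hA g') (by
        obtain ⟨g, hg⟩ := hnt
        obtain ⟨g', rfl⟩ := QuotientGroup.mk'_surjective U g
        exact ⟨g', hg⟩) ⟨U, hU, fun u hu => by
        rw [MonoidHom.comp_apply, QuotientGroup.mk'_apply, (QuotientGroup.eq_one_iff u).2 hu,
          map_one]⟩ r k hk τ

end

end Pool.Agent.Y798.OG
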