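import Pool.Agent.Y798.OG.Joint
import Pool.Agent.Y794.FC.Mix

/-! Orthogonal groups: mean values of products of class functions on `O(N)` and on a finite group. -/

set_option autoImplicit false
set_option linter.unusedSectionVars false

namespace Pool.Agent.Y798.OG

open Filter Topology MeasureTheory UnitAddTorus NumberField IsDedekindDomain
  Pool.Agent.W540.BE Pool.Agent.TH553.RS Pool.Agent.TH553.ST Pool.Agent.Y798.FC
  Pool.Agent.Y798.JL
open Pool.Agent.Y139.ID (wordFun chiW ev es idx SD IsHaarOn annih avg trig chiW_eq_sum norm_term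
  word_mul word_es continuous_span continuous_chiW intL intL_bound integrable_cont)

section
variable {Q : Type} [Group Q] [Finite Q]

/-- the mean value on a finite group -/
noncomputable def mm (e : Q → ℂ) : ℂ := (Nat.card Q : ℂ)⁻¹ * ∑ᶠ g, e g

theorem card_ne : (Nat.card Q : ℂ) ≠ 0 := by
  have : Nat.card Q ≠ 0 := Nat.card_pos.ne'
  exact_mod_cast this

theorem mm_mul (a : ℂ) (e : Q → ℂ) : mm (fun g => a * e g) = a * mm e := by
  letI := Fintype.ofFinite Q
  unfold mm
  rw [finsum_eq_sum_of_fintype, finsum_eq_sum_of_fintype, ← Finset.mul_sum]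
  ring

theorem mm_add (e e' : Q → ℂ) : mm (fun g => e g + e' g) = mm e + mm e' := by
  letI := Fintype.ofFinite Q
  unfold mm
  rw [finsum_eq_sum_of_fintype, finsum_eq_sum_of_fintype, finsum_eq_sum_of_fintype,
    Finset.sum_add_distrib]
  ring

theorem mm_sub (e e' : Q → ℂ) : mm (fun g => e g - e' g) = mm e - mm e' := by
  have h := mm_add e (fun g => (-1) * e' g)
  rw [mm_mul] at h
  have h2 : (fun g => e g - e' g) = fun g => e g + (-1) * e' g := by
    funext g
    ring
  rw [h2, h]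
  ring

theorem mm_sum {J : Type} [Fintype J] (e : J → Q → ℂ) :
    mm (fun g => ∑ j, e j g) = ∑ j, mm (e j) := by
  letI := Fintype.ofFinite Q
  unfold mm
  simp only [finsum_eq_sum_of_fintype]
  rw [← Finset.mul_sum, Finset.sum_comm]

theorem mm_const (a : ℂ) : mm (fun _ : Q => a) = a := by
  letI := Fintype.ofFinite Q
  unfold mm
  rw [finsum_eq_sum_of_fintype, Finset.sum_const, Finset.card_univ, nsmul_eq_mul,
    ← Nat.card_eq_fintype_card, inv_mul_cancel_left₀ card_ne]

theorem norm_mm {e : Q → ℂ} {C : ℝ} (h : ∀ g, ‖e g‖ ≤ C) : ‖mm e‖ ≤ C := by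
  letI := Fintype.ofFinite Q
  have hc : (0 : ℝ) < Nat.card Q := by exact_mod_cast Nat.card_pos
  unfold mm
  rw [finsum_eq_sum_of_fintype, norm_mul, norm_inv, Complex.norm_natCast]
  have h1 : ‖∑ g, e g‖ ≤ (Nat.card Q : ℝ) * C := by
    refine (norm_sum_le _ _).trans ?_
    refine (Finset.sum_le_card_nsmul _ _ C fun g _ => h g).trans ?_
    rw [Finset.card_univ, nsmul_eq_mul, Nat.card_eq_fintype_card]
  calc (Nat.card Q : ℝ)⁻¹ * ‖∑ g, e g‖ ≤ (Nat.card Q : ℝ)⁻¹ * ((Nat.card Q : ℝ) * C) :=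
        mul_le_mul_of_nonneg_left h1 (by positivity)
    _ = C := by rw [inv_mul_cancel_left₀ hc.ne']

theorem mm_eps {ε : Q →* ℤˣ} (h : ∃ g, ε g = -1) : mm (fun g => ((ε g : ℤ) : ℂ)) = 0 := by
  letI := Fintype.ofFinite Q
  obtain ⟨g0, hg0⟩ := h
  have h1 : ∑ g, ((ε g : ℤ) : ℂ) = -∑ g, ((ε g : ℤ) : ℂ) := by
    calc ∑ g, ((ε g : ℤ) : ℂ) = ∑ g, ((ε (g0 * g) : ℤ) : ℂ) :=
          (Equiv.sum_comp (Equiv.mulLeft g0) fun g => ((ε g : ℤ) : ℂ)).symm
      _ = ∑ g, -((ε g : ℤ) : ℂ) := by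
          refine Finset.sum_congr rfl fun g _ => ?_
          rw [map_mul, hg0]
          push_cast
          ring
      _ = _ := Finset.sum_neg_distrib _
  have h2 : ∑ g, ((ε g : ℤ) : ℂ) = 0 := by
    have : (2 : ℂ) * ∑ g, ((ε g : ℤ) : ℂ) = 0 := by
      linear_combination h1
    exact (mul_eq_zero.1 this).resolve_left two_ne_zero
  unfold mm
  rw [finsum_eq_sum_of_fintype, h2, mul_zero]

theorem mm_chi {n : ℕ} {ψ : Q →* Matrix.unitaryGroup (Fin n) ℂ} (hs : Schur ψ)
    (hnt : ∃ g, ψ g ≠ 1) : mm (chi ψ) = 0 := by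
  letI : TopologicalSpace Q := ⊥
  haveI : DiscreteTopology Q := ⟨rfl⟩
  haveI : IsTopologicalGroup Q := inferInstance
  haveI : CompactSpace Q := inferInstance
  letI : MeasurableSpace Q := borel Q
  haveI : BorelSpace Q := ⟨rfl⟩
  set ν : Measure Q := Measure.haarMeasure ⊤ with hν
  haveI hν1 : IsProbabilityMeasure ν := ⟨by
    rw [hν]
    exact Measure.haarMeasure_self⟩
  have h2 := int_chi (μ := ν) continuous_of_discreteTopology hs hnt
  rw [int_unif (Q := Q) (ν := ν), Complex.real_smul] at h2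
  push_cast at h2
  exact h2

theorem eps_sq (ε : Q →* ℤˣ) (g : Q) : ((ε g : ℤ) : ℂ) * ((ε g : ℤ) : ℂ) = 1 := by
  rcases unit_cases (ε g) with h | h <;> rw [h] <;> norm_num

theorem norm_eps (ε : Q →* ℤˣ) (g : Q) : ‖((ε g : ℤ) : ℂ)‖ = 1 := by
  rcases unit_cases (ε g) with h | h <;> rw [h] <;> simp

end

section
variable {K : Type} [Field K] [NumberField K] {N : ℕ} {P : Bool → Part N}
  {t : HeightOneSpectrum (𝓞 K) → UnitAddTorus (Fin N)} {Q : Type} [Group Q] [Finite Q]
  {q : HeightOneSpectrum (𝓞 K) → Q} {ε : Q →* ℤˣ}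

/-- the words times irreducible characters -/
theorem words_chi (hε : ∀ v, es N (t v) = ((ε (q v) : ℤ) : ℂ)) (hne : ∃ g, ε g = -1)
    (hnat : ∀ (r : ℕ) (k : Fin r → ℕ), (∀ j, k j ≤ N) →
      Tendsto (mn fun v => chiW k (t v)) atTop (𝓝 (hm P (chiW k))))
    (htw : ∀ (r : ℕ) (k : Fin r → ℕ), (∀ j, k j ≤ N) → ∀ (n : ℕ)
      (ψ : Q →* Matrix.unitaryGroup (Fin n) ℂ), Schur ψ → (∃ g, ψ g ≠ 1) →
      (∃ g, (ψ g : Matrix (Fin n) (Fin n) ℂ) ≠ ((ε g : ℤ) : ℂ) • (1 : Matrix (Fin n) (Fin n) ℂ)) →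
      Tendsto (mn fun v => chiW k (t v) * chi ψ (q v)) atTop (𝓝 0))
    {n : ℕ} {ψ : Q →* Matrix.unitaryGroup (Fin n) ℂ} (hs : Schur ψ) {r : ℕ} (k : Fin r → ℕ)
    (hk : ∀ j, k j ≤ N) :
    Tendsto (mn fun v => chiW k (t v) * chi ψ (q v)) atTop
      (𝓝 (mm (chi ψ) * hm P (chiW k) +
        mm (fun g => chi ψ g * ((ε g : ℤ) : ℂ)) * hm P (chiW k * es N))) := by
  by_cases hnt : ∃ g, ψ g ≠ 1
  · by_cases hnε : ∃ g, (ψ g : Matrix (Fin n) (Fin n) ℂ) ≠
        ((ε g : ℤ) : ℂ) • (1 : Matrix (Fin n) (Fin n) ℂ)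
    · have h1 : mm (fun g => chi ψ g * ((ε g : ℤ) : ℂ)) = 0 := by
        have h2 := mm_chi (schur_tw (ε := ε) hs) (nt_tw hnε)
        rw [← h2]
        congr 1
        funext g
        rw [chi_tw, mul_comm]
      rw [mm_chi hs hnt, h1, zero_mul, zero_mul, add_zero]
      exact htw r k hk n ψ hs hnt hnε
    · push Not at hnε
      have hchi : ∀ g, chi ψ g = ((ε g : ℤ) : ℂ) * n := fun g => by
        unfold chi
        rw [hnε g, Matrix.trace_smul, Matrix.trace_one, smul_eq_mul, Fintype.card_fin]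
      have h1 : mm (fun g => chi ψ g * ((ε g : ℤ) : ℂ)) = n := by
        have h2 : (fun g => chi ψ g * ((ε g : ℤ) : ℂ)) = fun _ => (n : ℂ) := by
          funext g
          rw [hchi, mul_assoc, mul_comm (n : ℂ), ← mul_assoc, eps_sq, one_mul]
        rw [h2, mm_const]
      rw [mm_chi hs hnt, h1, zero_mul, zero_add]
      obtain ⟨r', k', hk', h3⟩ := word_mul (N := N) (f := chiW k) (g := es N) ⟨r, k, hk, rfl⟩
        (word_es N le_rfl)
      have h4 := (hnat r' k' hk').const_mul (n : ℂ)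
      rw [h3]
      refine h4.congr fun M => ?_
      rw [← mn_const_mul]
      congr 1
      funext v
      rw [hchi, ← hε, ← h3, Pi.mul_apply]
      ring
  · push Not at hnt
    have hchi : ∀ g, chi ψ g = n := chi_triv' hnt
    have h1 : mm (chi ψ) = n := by
      have h2 : (chi ψ) = fun _ => (n : ℂ) := funext hchi
      rw [h2, mm_const]
    have h2 : mm (fun g => chi ψ g * ((ε g : ℤ) : ℂ)) = 0 := by
      have h3 : (fun g => chi ψ g * ((ε g : ℤ) : ℂ)) = fun g => (n : ℂ) * ((ε g : ℤ) : ℂ) := by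
        funext g
        rw [hchi]
      rw [h3, mm_mul, mm_eps hne, mul_zero]
    rw [h1, h2, zero_mul, add_zero]
    refine ((hnat r k hk).const_mul (n : ℂ)).congr fun M => ?_
    rw [← mn_const_mul]
    congr 1
    funext v
    rw [hchi, mul_comm]

/-- the words times class functions -/
theorem words_e (hε : ∀ v, es N (t v) = ((ε (q v) : ℤ) : ℂ)) (hne : ∃ g, ε g = -1)
    (hnat : ∀ (r : ℕ) (k : Fin r → ℕ), (∀ j, k j ≤ N) →
      Tendsto (mn fun v => chiW k (t v)) atTop (𝓝 (hm P (chiW k))))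
    (htw : ∀ (r : ℕ) (k : Fin r → ℕ), (∀ j, k j ≤ N) → ∀ (n : ℕ)
      (ψ : Q →* Matrix.unitaryGroup (Fin n) ℂ), Schur ψ → (∃ g, ψ g ≠ 1) →
      (∃ g, (ψ g : Matrix (Fin n) (Fin n) ℂ) ≠ ((ε g : ℤ) : ℂ) • (1 : Matrix (Fin n) (Fin n) ℂ)) →
      Tendsto (mn fun v => chiW k (t v) * chi ψ (q v)) atTop (𝓝 0))
    {e : Q → ℂ} (he : ∀ g k, e (k * g * k⁻¹) = e g) {r : ℕ} (k : Fin r → ℕ)
    (hk : ∀ j, k j ≤ N) :
    Tendsto (mn fun v => chiW k (t v) * e (q v)) atTop
      (𝓝 (mm e * hm P (chiW k) +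
        mm (fun g => e g * ((ε g : ℤ) : ℂ)) * hm P (chiW k * es N))) := by
  letI : TopologicalSpace Q := ⊥
  haveI : DiscreteTopology Q := ⟨rfl⟩
  haveI : IsTopologicalGroup Q := inferInstance
  haveI : CompactSpace Q := inferInstance
  letI : MeasurableSpace Q := borel Q
  haveI : BorelSpace Q := ⟨rfl⟩
  set a := hm P (chiW k) with ha
  set b := hm P (chiW k * es N) with hb
  have key2 : ∀ F : Q → ℂ, Dec F → Tendsto (mn fun v => chiW k (t v) * F (q v)) atTop
        (𝓝 (mm F * a + mm (fun g => F g * ((ε g : ℤ) : ℂ)) * b)) := by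
    rintro F ⟨J, _, m, ψ, c, h3, h4⟩
    have h5 : Tendsto (fun M => ∑ j, c j * mn (fun v => chiW k (t v) * chi (ψ j) (q v)) M) atTop
        (𝓝 (∑ j, c j * (mm (chi (ψ j)) * a +
          mm (fun g => chi (ψ j) g * ((ε g : ℤ) : ℂ)) * b))) :=
      tendsto_finsetSum _ fun j _ =>
        (words_chi hε hne hnat htw (h3 j).2 k hk).const_mul _
    have e1 : mm F = ∑ j, c j * mm (chi (ψ j)) := by
      rw [funext h4, mm_sum]
      exact Finset.sum_congr rfl fun j _ => mm_mul _ _
    have e2 : mm (fun g => F g * ((ε g : ℤ) : ℂ)) =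
        ∑ j, c j * mm (fun g => chi (ψ j) g * ((ε g : ℤ) : ℂ)) := by
      have e3 : (fun g => F g * ((ε g : ℤ) : ℂ)) =
          fun g => ∑ j, c j * (chi (ψ j) g * ((ε g : ℤ) : ℂ)) := by
        funext g
        rw [h4, Finset.sum_mul]
        exact Finset.sum_congr rfl fun j _ => by ring
      rw [e3, mm_sum]
      exact Finset.sum_congr rfl fun j _ => mm_mul _ _
    have e4 : mm F * a + mm (fun g => F g * ((ε g : ℤ) : ℂ)) * b =
        ∑ j, c j * (mm (chi (ψ j)) * a +
          mm (fun g => chi (ψ j) g * ((ε g : ℤ) : ℂ)) * b) := by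
      rw [e1, e2, Finset.sum_mul, Finset.sum_mul, ← Finset.sum_add_distrib]
      exact Finset.sum_congr rfl fun j _ => by ring
    rw [e4]
    refine h5.congr fun M => ?_
    have e5 : (fun v => chiW k (t v) * F (q v)) = fun v =>
        ∑ j, c j * (chiW k (t v) * chi (ψ j) (q v)) := by
      funext v
      rw [h4, Finset.mul_sum]
      exact Finset.sum_congr rfl fun j _ => by ring
    rw [e5, Pool.Agent.TH553.ST.mn_sum]
    exact Finset.sum_congr rfl fun j _ => (mn_mul _ _ _).symm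
  obtain ⟨B, hB⟩ := (isCompact_univ (X := UnitAddTorus (Fin N))).exists_bound_of_continuousOn
    (f := (chiW k : UnitAddTorus (Fin N) → ℂ)) (continuous_chiW k).continuousOn
  have hBf : ∀ x, ‖chiW k x‖ ≤ |B| := fun g => (hB g (Set.mem_univ _)).trans (le_abs_self _)
  refine mn_unif fun δ hδ => ?_
  set C : ℝ := |B| + (‖a‖ + ‖b‖) + 1 with hC
  have hC0 : 0 < C := by rw [hC]; positivity
  obtain ⟨F, h3, h4⟩ := class_dense (f := e) continuous_of_discreteTopology he
    (ε := δ / C) (by positivity)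
  have hb' : ∀ x : ℝ, 0 ≤ x → x ≤ C → x * (δ / C) ≤ δ := by
    intro x _ hx
    calc x * (δ / C) ≤ C * (δ / C) := mul_le_mul_of_nonneg_right hx (by positivity)
      _ = δ := by field_simp
  refine ⟨fun v => chiW k (t v) * F (q v), _, fun v => ?_, ?_, key2 F h3⟩
  · rw [← mul_sub, norm_mul]
    refine (mul_le_mul (hBf _) (h4 _) (norm_nonneg _) (abs_nonneg _)).trans
      (hb' _ (abs_nonneg _) ?_)
    rw [hC]
    linarith [norm_nonneg a, norm_nonneg b]
  · have e1 : (mm F * a + mm (fun g => F g * ((ε g : ℤ) : ℂ)) * b) -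
        (mm e * a + mm (fun g => e g * ((ε g : ℤ) : ℂ)) * b) =
        mm (fun g => F g - e g) * a + mm (fun g => (F g - e g) * ((ε g : ℤ) : ℂ)) * b := by
      have e2 : (fun g => (F g - e g) * ((ε g : ℤ) : ℂ)) = fun g =>
          F g * ((ε g : ℤ) : ℂ) - e g * ((ε g : ℤ) : ℂ) := by
        funext g
        ring
      rw [e2, mm_sub, mm_sub]
      ring
    rw [e1]
    have k1 : ‖mm (fun g => F g - e g)‖ ≤ δ / C := norm_mm fun g => by
      rw [norm_sub_rev]
      exact h4 g
    have k2 : ‖mm (fun g => (F g - e g) * ((ε g : ℤ) : ℂ))‖ ≤ δ / C := norm_mm fun g => by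
      rw [norm_mul, norm_eps, mul_one, norm_sub_rev]
      exact h4 g
    refine (norm_add_le _ _).trans ?_
    rw [norm_mul, norm_mul]
    have k3 : ‖mm (fun g => F g - e g)‖ * ‖a‖ ≤ (δ / C) * ‖a‖ :=
      mul_le_mul_of_nonneg_right k1 (norm_nonneg _)
    have k4 : ‖mm (fun g => (F g - e g) * ((ε g : ℤ) : ℂ))‖ * ‖b‖ ≤ (δ / C) * ‖b‖ :=
      mul_le_mul_of_nonneg_right k2 (norm_nonneg _)
    have k5 := hb' (‖a‖ + ‖b‖) (by positivity) (by
      rw [hC]
      linarith [abs_nonneg B])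
    calc _ ≤ (δ / C) * ‖a‖ + (δ / C) * ‖b‖ := add_le_add k3 k4
      _ = (‖a‖ + ‖b‖) * (δ / C) := by ring
      _ ≤ δ := k5

/-- the integral combinations of traces times class functions -/
theorem span_e {e : Q → ℂ}
    (h : ∀ (r : ℕ) (k : Fin r → ℕ), (∀ j, k j ≤ N) →
      Tendsto (mn fun v => chiW k (t v) * e (q v)) atTop
        (𝓝 (mm e * hm P (chiW k) +
          mm (fun g => e g * ((ε g : ℤ) : ℂ)) * hm P (chiW k * es N))))
    {G : UnitAddTorus (Fin N) → ℂ} (hG : G ∈ Submodule.span ℤ (wordFun N)) :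
    Tendsto (mn fun v => G (t v) * e (q v)) atTop
      (𝓝 (mm e * hm P G + mm (fun g => e g * ((ε g : ℤ) : ℂ)) * hm P (G * es N))) := by
  have hes : Continuous (es N : UnitAddTorus (Fin N) → ℂ) :=
    continuous_span (Submodule.subset_span (word_es N le_rfl))
  induction hG using Submodule.span_induction with
  | mem f hf =>
    obtain ⟨r, k, hk, rfl⟩ := hf
    exact h r k hk
  | zero =>
    have h0 : hm P (0 : UnitAddTorus (Fin N) → ℂ) = 0 := by
      have := hm_smul (P := P) 0 (0 : UnitAddTorus (Fin N) → ℂ)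
      simpa using this
    rw [zero_mul, h0, mul_zero, mul_zero, add_zero]
    refine tendsto_const_nhds.congr fun M => ?_
    unfold mn
    simp
  | add f g hf hg ihf ihg =>
    have hfc := continuous_span hf
    have hgc := continuous_span hg
    have h1 := ihf.add ihg
    have e1 : (f + g) * (es N : UnitAddTorus (Fin N) → ℂ) = f * es N + g * es N := add_mul _ _ _
    rw [e1, hm_add hfc hgc, hm_add (hfc.mul hes) (hgc.mul hes)]
    have e2 : mm e * (hm P f + hm P g) + mm (fun g => e g * ((ε g : ℤ) : ℂ)) *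
        (hm P (f * es N) + hm P (g * es N)) =
        mm e * hm P f + mm (fun g => e g * ((ε g : ℤ) : ℂ)) * hm P (f * es N) +
        (mm e * hm P g + mm (fun g => e g * ((ε g : ℤ) : ℂ)) * hm P (g * es N)) := by ring
    rw [e2]
    refine h1.congr fun M => ?_
    rw [← Pool.Agent.Y798.FC.mn_add]
    congr 1
    funext v
    simp only [Pi.add_apply]
    ring
  | smul a f hf ih =>
    have h1 := ih.const_mul (a : ℂ)
    have e1 : (a • f) * (es N : UnitAddTorus (Fin N) → ℂ) = a • (f * es N) := smul_mul_assoc _ _ _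
    rw [e1, hm_smul, hm_smul]
    have e2 : mm e * (a * hm P f) + mm (fun g => e g * ((ε g : ℤ) : ℂ)) *
        (a * hm P (f * es N)) = a * (mm e * hm P f +
          mm (fun g => e g * ((ε g : ℤ) : ℂ)) * hm P (f * es N)) := by ring
    rw [e2]
    refine h1.congr fun M => ?_
    rw [← mn_const_mul]
    congr 1
    funext v
    simp only [Pi.smul_apply, zsmul_eq_mul]
    ring

/-- the sign of a component -/
def sg : Bool → ℤ
  | true => 1
  | false => -1

theorem det_sg (hdet : Det P) (i : Bool) (x : UnitAddTorus (Fin (P i).r)) :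
    es N ((P i).emb x) = (sg i : ℂ) := by
  cases i with
  | true => rw [hdet.1]; simp [sg]
  | false => rw [hdet.2]; simp [sg]

theorem sg_sq (i : Bool) : (sg i : ℂ) * (sg i : ℂ) = 1 := by
  cases i <;> simp [sg]

/-- the mean value over a component -/
noncomputable def am (p : Part N) (f : UnitAddTorus (Fin N) → ℂ) : ℂ :=
  (((p.κ : ℂ) * (Nat.card (sympW p.r) : ℂ))⁻¹ * ∫ x, f (p.emb x) * (dens p.Φ x : ℂ) ∂(vol (Fin p.r)))

/-- one component -/
theorem comp_e (hC : StmC) (halg : Alg P) (hdet : Det P) (htc : ∀ v, t v ∈ classes P)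
    {e : Q → ℂ} {B : ℝ} (hB : 0 ≤ B) (heB : ∀ g, ‖e g‖ ≤ B)
    (h : ∀ (r : ℕ) (k : Fin r → ℕ), (∀ j, k j ≤ N) →
      Tendsto (mn fun v => chiW k (t v) * e (q v)) atTop
        (𝓝 (mm e * hm P (chiW k) +
          mm (fun g => e g * ((ε g : ℤ) : ℂ)) * hm P (chiW k * es N))))
    (i : Bool) {f : UnitAddTorus (Fin N) → ℂ} (hf : Continuous f) (hfs : Sy f) :
    Tendsto (mn fun v => f ((P i).emb ((P i).ret (t v))) * ((ind P t i v : ℂ) * e (q v))) atTop
      (𝓝 ((mm e + (sg i : ℂ) * mm (fun g => e g * ((ε g : ℤ) : ℂ))) * am (P i) f)) := by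
  have hfin := (hC (P i).r).fin
  have hκ : ((P i).κ : ℂ) ≠ 0 := by
    have := (P i).κ_pos.ne'
    exact_mod_cast this
  set c : ℂ := mm e + (sg i : ℂ) * mm (fun g => e g * ((ε g : ℤ) : ℂ)) with hc
  set D : C(UnitAddTorus (Fin (P i).r), ℂ) := densC (P i).Φ with hD
  have h1 := Pool.Agent.Y794.FC.inv_law (K := K) (W := sympW (P i).r) hfin
    (θ := fun v => (P i).ret (t v)) (u := fun v => (ind P t i v : ℂ) * e (q v)) (B := B)
    (D := ‖((P i).κ : ℂ)⁻¹ * c‖ * (‖D‖ * (vol (Fin (P i).r)).real Set.univ)) hB (fun v => by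
      rw [norm_mul, Complex.norm_real, Real.norm_eq_abs, abs_of_nonneg (ind_bd i v).1]
      have h2 := (ind_bd (P := P) (t := t) i v)
      have h3 := heB (q v)
      have h4 := norm_nonneg (e (q v))
      nlinarith)
    ((((P i).κ : ℂ)⁻¹ * c) • intL (vol (Fin (P i).r)) D) (fun g => by
      rw [LinearMap.smul_apply, norm_smul, mul_assoc]
      exact mul_le_mul_of_nonneg_left (intL_bound _ _ _) (norm_nonneg _))
    (fun μ => by
      obtain ⟨G, hG, k1, k2⟩ := halg i μ
      have h2 := span_e (ε := ε) h hG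
      have h3 : hm P G = dC (P i).Φ μ := hm_orb hC k1 k2
      have h4 : hm P (G * es N) = (sg i : ℂ) * dC (P i).Φ μ := by
        have h5 : hm P (sg i • (G * es N)) = dC (P i).Φ μ := by
          refine hm_orb hC (fun x => ?_) (fun j hj x => ?_)
          · simp only [Pi.smul_apply, Pi.mul_apply, zsmul_eq_mul]
            rw [det_sg hdet, k1, mul_comm, mul_assoc, sg_sq, mul_one]
          · simp only [Pi.smul_apply, Pi.mul_apply, zsmul_eq_mul]
            rw [k2 j hj, zero_mul, mul_zero]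
        rw [hm_smul] at h5
        rw [← h5, ← mul_assoc, sg_sq, one_mul]
      rw [h3, h4] at h2
      have h5 := h2.const_mul ((P i).κ : ℂ)⁻¹
      have h6 : ((((P i).κ : ℂ)⁻¹ * c) • intL (vol (Fin (P i).r)) D) (mFourier μ) =
          ((P i).κ : ℂ)⁻¹ * (mm e * dC (P i).Φ μ +
            mm (fun g => e g * ((ε g : ℤ) : ℂ)) * ((sg i : ℂ) * dC (P i).Φ μ)) := by
        rw [LinearMap.smul_apply, intL_apply, smul_eq_mul]
        have h7 : ∫ x, (mFourier μ : C(UnitAddTorus (Fin (P i).r), ℂ)) x * D x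
            ∂(vol (Fin (P i).r)) = dC (P i).Φ μ := rfl
        rw [h7, hc]
        ring
      rw [h6]
      refine h5.congr fun M => ?_
      rw [← mn_const_mul]
      congr 1
      funext v
      rw [ind_eq htc k2 v, k1]
      field_simp)
    (f := fun x => f ((P i).emb x)) (hf.comp (P i).cemb) (fun w hw x => by
      obtain ⟨τ, hτ⟩ := (P i).equi w hw x
      have h2 : (P i).emb (act w x) = fun j => (P i).emb x (τ j) := funext hτ
      rw [h2, hfs τ])
  have h2 : (Nat.card (sympW (P i).r) : ℂ)⁻¹ *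
      ((((P i).κ : ℂ)⁻¹ * c) • intL (vol (Fin (P i).r)) D)
        ⟨fun x => f ((P i).emb x), hf.comp (P i).cemb⟩ = c * am (P i) f := by
    rw [LinearMap.smul_apply, intL_apply, smul_eq_mul]
    have h7 : ∫ x, (⟨fun x => f ((P i).emb x), hf.comp (P i).cemb⟩ :
        C(UnitAddTorus (Fin (P i).r), ℂ)) x * D x ∂(vol (Fin (P i).r)) =
        ∫ x, f ((P i).emb x) * (dens (P i).Φ x : ℂ) ∂(vol (Fin (P i).r)) := rfl
    rw [h7]
    unfold am
    rw [mul_inv]
    ring
  rw [h2] at h1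
  exact h1

end

/-- **Mean values of products of class functions on `O(N)` and on a finite group.** -/
theorem mixP (hC : StmC) : StmMixP := by
  intro N P halg hdet hmass K _ _ t htc Q _ _ q ε hε hne hfrob hnat htw f hf hfs e he
  letI := Fintype.ofFinite Q
  set B : ℝ := ∑ g, ‖e g‖ with hB
  have hB0 : 0 ≤ B := Finset.sum_nonneg fun _ _ => norm_nonneg _
  have heB : ∀ g, ‖e g‖ ≤ B := fun g =>
    Finset.single_le_sum (f := fun g => ‖e g‖) (fun _ _ => norm_nonneg _) (Finset.mem_univ g)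
  have h := fun (r : ℕ) (k : Fin r → ℕ) (hk : ∀ j, k j ≤ N) =>
    words_e (q := q) (ε := ε) hε hne hnat htw he k hk
  have h1 := (comp_e hC halg hdet htc hB0 heB h true hf hfs).add
    (comp_e hC halg hdet htc hB0 heB h false hf hfs)
  have h2 : (mm e + (sg true : ℂ) * mm (fun g => e g * ((ε g : ℤ) : ℂ))) * am (P true) f +
      (mm e + (sg false : ℂ) * mm (fun g => e g * ((ε g : ℤ) : ℂ))) * am (P false) f =
      (Nat.card Q : ℂ)⁻¹ * ∑ᶠ g, e g *
        (if ε g = 1 then 2 * am (P true) f else 2 * am (P false) f) := by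
    have h3 : (fun g => e g * (if ε g = 1 then 2 * am (P true) f else 2 * am (P false) f)) =
        fun g => (am (P true) f + am (P false) f) * e g +
          (am (P true) f - am (P false) f) * (e g * ((ε g : ℤ) : ℂ)) := by
      funext g
      by_cases hg : ε g = 1
      · rw [if_pos hg, hg]
        push_cast
        ring
      · rw [if_neg hg, (Int.units_eq_one_or (ε g)).resolve_left hg]
        push_cast
        ring
    have h4 : (Nat.card Q : ℂ)⁻¹ * ∑ᶠ g, e g *
        (if ε g = 1 then 2 * am (P true) f else 2 * am (P false) f) =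
        mm (fun g => e g * (if ε g = 1 then 2 * am (P true) f else 2 * am (P false) f)) := rfl
    rw [h4, h3, mm_add, mm_mul, mm_mul]
    simp only [sg]
    push_cast
    ring
  rw [h2] at h1
  refine h1.congr fun M => ?_
  rw [← Pool.Agent.Y798.FC.mn_add]
  congr 1
  funext v
  have h3 : f (t v) = ∑ i, (ind P t i v : ℂ) * f ((P i).emb ((P i).ret (t v))) := by
    obtain ⟨i, hi⟩ := Set.mem_iUnion.1 (htc v)
    obtain ⟨x, hx⟩ := hi
    have hdisj : ∀ j, j ≠ i → t v ∉ Set.range (P j).emb := by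
      intro j hj hmem
      obtain ⟨y, hy⟩ := hmem
      have h5 := det_sg hdet i x
      have h6 := det_sg hdet j y
      rw [hx] at h5
      rw [hy, h5] at h6
      cases i <;> cases j <;> simp_all [sg] <;> norm_num at h6
    rw [Finset.sum_eq_single i]
    · unfold ind
      rw [if_pos ⟨x, hx⟩, ← hx, (P i).ret_emb]
      simp
    · intro j _ hj
      unfold ind
      rw [if_neg (hdisj j hj)]
      simp
    · intro h
      exact absurd (Finset.mem_univ i) h
  rw [h3, Fintype.sum_bool]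
  ring

end Pool.Agent.Y798.OG
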