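import Pool.Agent.Y798.OG.Part

/-! Orthogonal groups: statements of the jobs, second part. -/

set_option autoImplicit false

namespace Pool.Agent.Y798.OG

open Complex Filter Topology MeasureTheory UnitAddTorus NumberField IsDedekindDomain
  Pool.Agent.W540.BE Pool.Agent.TH553.RS Pool.Agent.TH553.ST Pool.Agent.Y798.FC
open Pool.Agent.Y139.ID (wordFun chiW ev es idx SD IsHaarOn annih avg)

variable {N : ℕ} {I : Type} [Fintype I]

/-- the conclusion of `StmLaw` for a number `R` -/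
def LawR (P : I → Part N) (R : ℕ) : Prop :=
  ∀ ν : Measure (UnitAddTorus (Fin N)), IsProbabilityMeasure ν → ν (classes P)ᶜ = 0 →
    (∀ (r : ℕ) (k : Fin r → ℕ), (∀ j, k j ≤ N) → ∃ n : ℤ, ∫ x, chiW k x ∂ν = n) →
    (∀ (r : ℕ) (k : Fin r → ℕ), r ≤ R → (∀ j, k j ≤ N) → ∫ x, chiW k x ∂ν = hm P (chiW k)) →
    ∃ (Γ : ∀ i, AddSubgroup (Fin (P i).r → ℤ)) (a : ∀ i, UnitAddTorus (Fin (P i).r)),
      (∀ i, Adm (P i).r (Γ i) (a i)) ∧
      ∀ σ : ∀ i, Measure (UnitAddTorus (Fin (P i).r)), (∀ i, IsHaarOn (annih (Γ i)) (σ i)) →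
        ∀ f : UnitAddTorus (Fin N) → ℝ, Continuous f → Sy f → ∫ x, f x ∂ν = cm P σ a f

/-- the Euler product which belongs to a word, for the classes `t_v` in the torus of `U(N)` -/
noncomputable def wordLT {K : Type} [Field K] [NumberField K]
    (t : HeightOneSpectrum (𝓞 K) → UnitAddTorus (Fin N)) {r : ℕ} (k : Fin r → ℕ) : ℂ → ℂ :=
  eulerL (idx N k) fun v S => ∏ j, ∏ i ∈ S j, ev (t v) i

/-- job OG-FL: finite level, without hypothesis -/
def StmFL : Prop := ∀ (N : ℕ) (I : Type) [Fintype I] (P : I → Part N) (R : ℕ), LawR P R →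
  ∀ (m : ℕ) (f : Fin m → UnitAddTorus (Fin N) → ℝ), (∀ i, Continuous (f i)) → (∀ i, Sy (f i)) →
  ∀ δ : ℝ, 0 < δ →
  ∃ (η : ℝ) (R' : ℕ), 0 < η ∧ ∀ (K : Type) [Field K] [NumberField K]
    (t : HeightOneSpectrum (𝓞 K) → UnitAddTorus (Fin N)), (∀ v, t v ∈ classes P) →
    ∀ᶠ ε : ℝ in 𝓝[>] 0,
      (∃ (r : ℕ) (k : Fin r → ℕ), r ≤ R' ∧ (∀ j, k j ≤ N) ∧
        ∀ n : ℤ, η < |sz (wordLT t k) ε - n|) ∨
      (∃ (r : ℕ) (k : Fin r → ℕ), r ≤ R ∧ (∀ j, k j ≤ N) ∧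
        η < |sz (wordLT t k) ε - (hm P (chiW k)).re|) ∨
      ∃ (Γ : ∀ i, AddSubgroup (Fin (P i).r → ℤ)) (a : ∀ i, UnitAddTorus (Fin (P i).r)),
        (∀ i, Adm (P i).r (Γ i) (a i)) ∧
        ∀ σ : ∀ i, Measure (UnitAddTorus (Fin (P i).r)), (∀ i, IsHaarOn (annih (Γ i)) (σ i)) →
          ∀ i, |avg (fun v => f i (t v)) ε - cm P σ a (f i)| ≤ δ

/-- job OG-MN: natural mean values -/
def StmMn : Prop := ∀ (N : ℕ) (I : Type) [Fintype I] (P : I → Part N), Alg P →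
  ∀ (K : Type) [Field K] [NumberField K] (t : HeightOneSpectrum (𝓞 K) → UnitAddTorus (Fin N)),
    (∀ v, t v ∈ classes P) →
    ∀ ν : Measure (UnitAddTorus (Fin N)), IsProbabilityMeasure ν → ν (classes P)ᶜ = 0 →
      (∀ (r : ℕ) (k : Fin r → ℕ), (∀ j, k j ≤ N) →
        Tendsto (mn fun v => chiW k (t v)) atTop (𝓝 (∫ x, chiW k x ∂ν))) →
      ∀ f : UnitAddTorus (Fin N) → ℝ, Continuous f → Sy f →
        Tendsto (mn fun v => f (t v)) atTop (𝓝 (∫ x, f x ∂ν))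

/-! ### The orthogonal groups of odd order -/

/-- the positive roots `e_i`, `e_i - e_j`, `e_i + e_j` (`i < j`) of `SO(2n+1)` -/
def bRoots (n : ℕ) : Finset (Fin n → ℤ) :=
  (Finset.univ.image fun i : Fin n => Pi.single i 1) ∪
    ((Finset.univ.filter fun p : Fin n × Fin n => p.1 < p.2).image
      fun p => Pi.single p.1 1 - Pi.single p.2 1) ∪
    ((Finset.univ.filter fun p : Fin n × Fin n => p.1 < p.2).image
      fun p => Pi.single p.1 1 + Pi.single p.2 1)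

/-- the angles `0, x_1, …, x_m, -x_1, …, -x_m` of the eigenvalues of an element of `O(2m+1)` of
determinant `1` -/
noncomputable def posO {m : ℕ} (x : UnitAddTorus (Fin m)) : UnitAddTorus (Fin (m + m + 1)) :=
  (Fin.cons 0 (Fin.append x (-x) : Fin (m + m) → UnitAddCircle) : Fin (m + m + 1) → UnitAddCircle)

/-- the angles of the eigenvalues of minus the preceding element -/
noncomputable def negO {m : ℕ} (x : UnitAddTorus (Fin m)) : UnitAddTorus (Fin (m + m + 1)) :=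
  fun j => posO x j + ((1 / 2 : ℝ) : UnitAddCircle)

/-- job OG-B: Weyl's integration formula for `SO(2m+1)` -/
def StmB : Prop := ∀ m : ℕ, IsWeylDatum (sympW m) (bRoots m)

/-- job OG-ALGB: class functions which are supported on one component, odd order -/
def StmAlgB : Prop := ∀ (m : ℕ) (μ : Fin m → ℤ),
  (∃ G ∈ Submodule.span ℤ (wordFun (m + m + 1)),
    (∀ x : UnitAddTorus (Fin m), G (posO x) = 2 * orb (sympW m) μ x) ∧
    ∀ x : UnitAddTorus (Fin m), G (negO x) = 0) ∧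
  ∃ G ∈ Submodule.span ℤ (wordFun (m + m + 1)),
    (∀ x : UnitAddTorus (Fin m), G (posO x) = 0) ∧
    ∀ x : UnitAddTorus (Fin m), G (negO x) = 2 * orb (sympW m) μ x

/-- job OG-EQ: the classes are self-dual, and invariant under the Weyl groups -/
def StmEq : Prop := ∀ m : ℕ,
  (∀ x : UnitAddTorus (Fin (m + 1)), pos x ∈ SD ((m + 1) + (m + 1))) ∧
  (∀ y : UnitAddTorus (Fin m), neg y ∈ SD ((m + 1) + (m + 1))) ∧
  (∀ x : UnitAddTorus (Fin m), posO x ∈ SD (m + m + 1)) ∧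
  (∀ x : UnitAddTorus (Fin m), negO x ∈ SD (m + m + 1)) ∧
  (∀ w ∈ sympW (m + 1), ∀ x : UnitAddTorus (Fin (m + 1)),
    ∃ σ : Equiv.Perm (Fin ((m + 1) + (m + 1))), ∀ j, pos (act w x) j = pos x (σ j)) ∧
  (∀ w ∈ sympW m, ∀ y : UnitAddTorus (Fin m),
    ∃ σ : Equiv.Perm (Fin ((m + 1) + (m + 1))), ∀ j, neg (act w y) j = neg y (σ j)) ∧
  ∀ w ∈ sympW m, ∀ x : UnitAddTorus (Fin m),
    ∃ σ : Equiv.Perm (Fin (m + m + 1)), ∀ j, posO (act w x) j = posO x (σ j)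

end Pool.Agent.Y798.OG
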