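import Pool.Agent.Y798.OG.Stm2
import Pool.Agent.Y798.FC.Joint

/-! Orthogonal groups: the law in the sense of Dirichlet density. -/

set_option autoImplicit false

namespace Pool.Agent.Y798.OG

open Filter Topology MeasureTheory UnitAddTorus NumberField IsDedekindDomain
  Pool.Agent.W540.BE Pool.Agent.TH553.RS Pool.Agent.TH553.ST Pool.Agent.Y798.FC
open Pool.Agent.Y139.ID (Good good_ev integrable_cont integrable_cont_real IsHaarOn annih ev es
  chiW wordFun idx chiW_eq_sum norm_term norm_chiW_le continuous_chiW SD im_chiW avg)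

section
variable {K : Type} [Field K] [NumberField K] {N : ℕ}
  {t : HeightOneSpectrum (𝓞 K) → UnitAddTorus (Fin N)}

theorem norm_wordT {r : ℕ} (k : Fin r → ℕ) (v : HeightOneSpectrum (𝓞 K)) :
    ∀ S ∈ idx N k, ‖(fun v (S : Fin r → Finset (Fin N)) =>
      ∏ j, ∏ i ∈ S j, ev (t v) i) v S‖ = 1 := fun S _ => norm_term S _

theorem wordT_mean (him : StmIm) {r : ℕ} {k : Fin r → ℕ} {τ : ℝ}
    (h : ContAt (wordLT t k) (1 + τ * Complex.I)) :
    ∃ m : ℤ, PoleAt (wordLT t k) (1 + τ * Complex.I) m ∧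
      Tendsto (cE fun v => chiW k (t v) * ht τ v) (𝓝[>] 0) (𝓝 (m : ℂ)) := by
  obtain ⟨m, h1, h2⟩ := cont_mean (norm_wordT k) him h
  refine ⟨m, h1, ?_⟩
  simpa only [chiW_eq_sum] using h2

theorem wordT_mean_one (him : StmIm) {r : ℕ} {k : Fin r → ℕ} (h : ContAt (wordLT t k) 1) :
    ∃ m : ℤ, PoleAt (wordLT t k) 1 m ∧
      Tendsto (cE fun v => chiW k (t v)) (𝓝[>] 0) (𝓝 (m : ℂ)) := by
  obtain ⟨m, h1, h2⟩ := wordT_mean (τ := 0) him (by rw [one_add_zero]; exact h)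
  rw [one_add_zero] at h1
  simp only [ht_zero, mul_one] at h2
  exact ⟨m, h1, h2⟩

theorem wordT_pole_one (him : StmIm) {r : ℕ} {k : Fin r → ℕ} {n : ℤ}
    (h : PoleAt (wordLT t k) 1 n) :
    Tendsto (cE fun v => chiW k (t v)) (𝓝[>] 0) (𝓝 (n : ℂ)) := by
  have h2 := pole_mean' (norm_wordT k) him (τ := 0) (by rw [one_add_zero]; exact h)
  simp only [ht_zero, mul_one] at h2
  simpa only [chiW_eq_sum] using h2

theorem wordT_nat (him : StmIm) (htaub : StmTaub) {r : ℕ} {k : Fin r → ℕ} {c : ℤ}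
    (hc : Tendsto (cE fun v => chiW k (t v)) (𝓝[>] 0) (𝓝 (c : ℂ)))
    (h0 : ∀ τ : ℝ, τ ≠ 0 → Tendsto (cE fun v => chiW k (t v) * ht τ v) (𝓝[>] 0) (𝓝 0))
    (h : ∀ τ : ℝ, ContAt (wordLT t k) (1 + τ * Complex.I)) :
    Tendsto (mn fun v => chiW k (t v)) atTop (𝓝 (c : ℂ)) := by
  simp only [chiW_eq_sum] at hc h0 ⊢
  exact nat_mean (norm_wordT k) him htaub hc h0 h

end

section
variable {N : ℕ} {I : Type} [Fintype I] {P : I → Part N}

theorem isClosed_classes (P : I → Part N) : IsClosed (classes P) := by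
  unfold classes
  exact isClosed_iUnion_of_finite fun i => (isCompact_range (P i).cemb).isClosed

theorem null_of_int {ν : Measure (UnitAddTorus (Fin N))} [IsFiniteMeasure ν]
    {C : Set (UnitAddTorus (Fin N))} (hC : IsClosed C) (hne : C.Nonempty)
    (h : ∫ x, Metric.infDist x C ∂ν = 0) : ν Cᶜ = 0 := by
  have hc : Continuous fun x : UnitAddTorus (Fin N) => Metric.infDist x C :=
    Metric.continuous_infDist_pt C
  have h1 := (integral_eq_zero_iff_of_nonneg (fun x => Metric.infDist_nonneg)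
    (integrable_cont_real ν hc)).1 h
  have h2 : ∀ᵐ x ∂ν, x ∈ C := by
    filter_upwards [h1] with x hx
    exact (hC.mem_iff_infDist_zero hne).2 hx
  rw [ae_iff] at h2
  exact h2

theorem exists_prime (K : Type) [Field K] [NumberField K] : Nonempty (HeightOneSpectrum (𝓞 K)) := by
  by_contra hne
  rw [not_nonempty_iff] at hne
  have h1 : ∀ᶠ ε : ℝ in 𝓝[>] 0, Good K ε := good_ev (K := K)
  obtain ⟨ε, hε⟩ := h1.exists
  have h2 := cE_one hε
  unfold cE at h2
  rw [tsum_empty] at h2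
  exact zero_ne_one h2

theorem null_ulaw {K : Type} [Field K] [NumberField K]
    {t : HeightOneSpectrum (𝓞 K) → UnitAddTorus (Fin N)} (ht : ∀ v, t v ∈ classes P)
    {U : Ultrafilter ℝ} {ν : ProbabilityMeasure (UnitAddTorus (Fin N))}
    (hν : ∀ f : UnitAddTorus (Fin N) → ℂ, Continuous f →
      Tendsto (cE fun v => f (t v)) (U : Filter ℝ)
        (𝓝 (∫ x, f x ∂(ν : Measure (UnitAddTorus (Fin N)))))) :
    (ν : Measure (UnitAddTorus (Fin N))) (classes P)ᶜ = 0 := by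
  obtain ⟨v0⟩ := exists_prime K
  refine null_of_int (isClosed_classes P) ⟨_, ht v0⟩ ?_
  have h1 := hν (fun x => ((Metric.infDist x (classes P) : ℝ) : ℂ))
    (Complex.continuous_ofReal.comp (Metric.continuous_infDist_pt _))
  have h2 : (fun v => ((Metric.infDist (t v) (classes P) : ℝ) : ℂ)) = fun _ => 0 := by
    funext v
    rw [Metric.infDist_zero_of_mem (ht v)]
    simp
  rw [h2, integral_complex_ofReal] at h1
  have h3 : Tendsto (cE fun _ : HeightOneSpectrum (𝓞 K) => (0 : ℂ)) (U : Filter ℝ) (𝓝 0) := by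
    refine tendsto_const_nhds.congr fun ε => ?_
    simp [cE]
  have h4 := tendsto_nhds_unique h1 h3
  exact_mod_cast h4

/-- the law in the sense of Dirichlet density -/
theorem dirP (him : StmIm) (huniq : StmUniq) (halg : Alg P) {R : ℕ} (hlaw : LawR P R)
    {K : Type} [Field K] [NumberField K] {t : HeightOneSpectrum (𝓞 K) → UnitAddTorus (Fin N)}
    (ht : ∀ v, t v ∈ classes P)
    (hcont : ∀ (r : ℕ) (k : Fin r → ℕ), (∀ j, k j ≤ N) → ContAt (wordLT t k) 1)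
    (hpole : ∀ (r : ℕ) (k : Fin r → ℕ), r ≤ R → (∀ j, k j ≤ N) →
      ∃ m : ℤ, (m : ℂ) = hm P (chiW k) ∧ PoleAt (wordLT t k) 1 m) :
    ∃ ν : Measure (UnitAddTorus (Fin N)), IsProbabilityMeasure ν ∧ ν (classes P)ᶜ = 0 ∧
      (∀ (r : ℕ) (k : Fin r → ℕ), (∀ j, k j ≤ N) → ∃ n : ℤ, ∫ x, chiW k x ∂ν = n ∧
        Tendsto (cE fun v => chiW k (t v)) (𝓝[>] 0) (𝓝 (n : ℂ))) ∧
      (∀ (r : ℕ) (k : Fin r → ℕ), r ≤ R → (∀ j, k j ≤ N) → ∫ x, chiW k x ∂ν = hm P (chiW k)) ∧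
      (∀ f : UnitAddTorus (Fin N) → ℝ, Continuous f → Sy f →
        Tendsto (avg fun v => f (t v)) (𝓝[>] 0) (𝓝 (∫ x, f x ∂ν))) ∧
      ∃ (Γ : ∀ i, AddSubgroup (Fin (P i).r → ℤ)) (a : ∀ i, UnitAddTorus (Fin (P i).r)),
        (∀ i, Adm (P i).r (Γ i) (a i)) ∧
        ∀ σ : ∀ i, Measure (UnitAddTorus (Fin (P i).r)), (∀ i, IsHaarOn (annih (Γ i)) (σ i)) →
          ∀ f : UnitAddTorus (Fin N) → ℝ, Continuous f → Sy f → ∫ x, f x ∂ν = cm P σ a f := by
  have hUle : (Ultrafilter.of (𝓝[>] (0 : ℝ)) : Filter ℝ) ≤ 𝓝[>] 0 := Ultrafilter.of_le _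
  obtain ⟨ν, hν⟩ := exists_ulaw t _ hUle
  have hnull := null_ulaw ht hν
  have hw : ∀ (r : ℕ) (k : Fin r → ℕ), (∀ j, k j ≤ N) →
      ∃ n : ℤ, ∫ x, chiW k x ∂(ν : Measure (UnitAddTorus (Fin N))) = n ∧
        Tendsto (cE fun v => chiW k (t v)) (𝓝[>] 0) (𝓝 (n : ℂ)) := by
    intro r k hk
    obtain ⟨m, -, h2⟩ := wordT_mean_one him (hcont r k hk)
    exact ⟨m, tendsto_nhds_unique (hν _ (continuous_chiW k)) (h2.mono_left hUle), h2⟩
  have hmatch : ∀ (r : ℕ) (k : Fin r → ℕ), r ≤ R → (∀ j, k j ≤ N) →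
      ∫ x, chiW k x ∂(ν : Measure (UnitAddTorus (Fin N))) = hm P (chiW k) := by
    intro r k hr hk
    obtain ⟨m, h1, h2⟩ := hpole r k hr hk
    rw [← h1]
    exact tendsto_nhds_unique (hν _ (continuous_chiW k)) ((wordT_pole_one him h2).mono_left hUle)
  refine ⟨ν, inferInstance, hnull, hw, hmatch, fun f hf hfs => ?_,
    hlaw ν inferInstance hnull (fun r k hk => by
      obtain ⟨n, h1, -⟩ := hw r k hk
      exact ⟨n, h1⟩) hmatch⟩
  obtain ⟨C, hC⟩ := isCompact_univ.exists_bound_of_continuousOn (f := f) hf.continuousOn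
  refine avg_of_cE (B := C) (fun v => hC _ (Set.mem_univ _)) ?_
  rw [tendsto_iff_ultrafilter]
  intro U' hU'
  obtain ⟨ν', hν'⟩ := exists_ulaw t U' hU'
  have h1 := huniq N I P halg ν ν' inferInstance inferInstance hnull (null_ulaw ht hν')
    (fun r k hk => by
      obtain ⟨n, h1, h2⟩ := hw r k hk
      rw [h1]
      exact tendsto_nhds_unique (h2.mono_left hU') (hν' _ (continuous_chiW k))) f hf hfs
  have h2 := hν' (fun x => (f x : ℂ)) (Complex.continuous_ofReal.comp hf)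
  rw [integral_complex_ofReal, ← h1] at h2
  exact h2

end

end Pool.Agent.Y798.OG
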