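import Pool.Agent.Y798.OG.Stm3
import Pool.Agent.Y839.FC2.Fun

/-! Job OG-FUNW: the functional of a bounded function, with a weight (adaptation of
`Pool.Agent.Y839.FC2.Fun` of helper839, by helper383; copy with one name made explicit). -/

set_option autoImplicit false

namespace Pool.Agent.Y798.OG.FunW

open Complex Filter Topology MeasureTheory UnitAddTorus NumberField IsDedekindDomain
  Pool.Agent.W540.BE Pool.Agent.TH553.RS Pool.Agent.Y798.FC Pool.Agent.Y798.OG
open Pool.Agent.TH553.ST hiding wt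
open Pool.Agent.Y139.ID (Good good_ev wt wt_nonneg hasSum_wt avg avg_eq integrable_cont
  integrable_cont_real)
open Pool.Agent.Y839.FC2 (cs_cE dens_nonneg)

/-- invariance of the integrals against the density -/
theorem int_act {J : Type} [Fintype J] {W : Subgroup (Auts J)} {Φ : Finset (J → ℤ)}
    (hΦ : ∀ w ∈ W, ∀ x, dens Φ (act w x) = dens Φ x) {w : Auts J} (hw : w ∈ W)
    {g : UnitAddTorus J → ℝ} (hg : Continuous g) :
    ∫ x, g (act w x) * dens Φ x ∂(vol J) = ∫ x, g x * dens Φ x ∂(vol J) := by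
  have h1 : ∫ x, g (act w x) * dens Φ x ∂(vol J) =
      ∫ x, (fun y => g y * dens Φ y) (act w x) ∂(vol J) := by
    refine integral_congr_ae (Eventually.of_forall fun x => ?_)
    simp only
    rw [hΦ w hw]
  have hd := continuous_dens Φ
  rw [h1, ← integral_map (f := fun y => g y * dens Φ y)
    (continuous_act w).measurable.aemeasurable, vol_map]
  exact (hg.mul hd).aestronglyMeasurable

theorem t : StmFunW := by
  intro K _ _ r W _ Φ hΦ κ hκ θ a ha U hU hlaw h B hB m hh
  classical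
  have hcW : (0 : ℝ) < Nat.card W := by exact_mod_cast Nat.card_pos
  have hcW' : (Nat.card W : ℝ) ≠ 0 := hcW.ne'
  have hκ0 : (0 : ℝ) < κ := by exact_mod_cast hκ
  have hκ' : (κ : ℝ) ≠ 0 := hκ0.ne'
  have hdc := continuous_dens Φ
  have ha1 : ∀ v, ‖((a v : ℝ) : ℂ)‖ ≤ 1 := fun v => by
    rw [Complex.norm_real, Real.norm_of_nonneg (ha v).1]
    exact (ha v).2
  have hs1 : ∀ v, Real.sqrt (a v) ≤ 1 := fun v => by
    rw [Real.sqrt_le_iff, one_pow]
    exact ⟨zero_le_one, (ha v).2⟩
  have hs0 : ∀ v, 0 ≤ Real.sqrt (a v) := fun v => Real.sqrt_nonneg _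
  have hss : ∀ v, Real.sqrt (a v) * Real.sqrt (a v) = a v := fun v => Real.mul_self_sqrt (ha v).1
  set B' : ℝ := max B 0 with hB'
  have hhB : ∀ v, ‖h v‖ ≤ B' := fun v => (hB v).trans (le_max_left _ _)
  have hB'0 : 0 ≤ B' := le_max_right _ _
  set T : C(UnitAddTorus (Fin r), ℂ) → HeightOneSpectrum (𝓞 K) → ℂ := fun f v =>
    (a v : ℂ) * (sym W f (θ v) * h v) with hT
  have hTb : ∀ f v, ‖T f v‖ ≤ Nat.card W * ‖f‖ * B' := by
    intro f v
    rw [hT]
    simp only
    rw [norm_mul, norm_mul]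
    have h1 : ‖sym W f (θ v)‖ * ‖h v‖ ≤ Nat.card W * ‖f‖ * B' :=
      mul_le_mul (sym_norm_le _ _) (hhB v) (norm_nonneg _)
        (mul_nonneg (Nat.cast_nonneg _) (norm_nonneg _))
    refine (mul_le_of_le_one_left (mul_nonneg (norm_nonneg _) (norm_nonneg _)) (ha1 v)).trans h1
  have hex : ∀ f, ∃ y, Tendsto (cE (T f)) (U : Filter ℝ) (𝓝 y) := fun f =>
    ulim U (R := Nat.card W * ‖f‖ * B') (by
      filter_upwards [hU (good_ev (K := K))] with ε hε
      exact norm_cE_le hε (hTb f))
  choose ℓ hℓ using hex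
  have hadd : ∀ f g v, T (f + g) v = T f v + T g v := by
    intro f g v
    rw [hT]
    simp only [sym, ContinuousMap.add_apply]
    rw [← mul_add, ← add_mul, ← Finset.sum_add_distrib]
  have hsmul : ∀ (b : ℂ) f v, T (b • f) v = b * T f v := by
    intro b f v
    rw [hT]
    simp only [sym, ContinuousMap.smul_apply, smul_eq_mul]
    rw [← Finset.mul_sum]
    ring
  have hm0 : 0 ≤ m := by
    have h2 := (Complex.continuous_re.tendsto _).comp hh
    rw [Complex.ofReal_re] at h2
    refine ge_of_tendsto h2 ?_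
    filter_upwards [hU (good_ev (K := K))] with ε hε
    simp only [Function.comp]
    rw [cE_re hε (B := B' ^ 2) (fun v => by
      rw [Complex.norm_real, Real.norm_of_nonneg (mul_nonneg (ha v).1 (sq_nonneg _))]
      refine (mul_le_of_le_one_left (sq_nonneg _) (ha v).2).trans ?_
      exact pow_le_pow_left₀ (norm_nonneg _) (hhB v) 2), avg_eq]
    refine tsum_nonneg fun v => mul_nonneg (wt_nonneg hε v) ?_
    rw [Complex.ofReal_re]
    exact mul_nonneg (ha v).1 (sq_nonneg _)
  refine ⟨{ toFun := ℓ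
            map_add' := fun f g => ?_
            map_smul' := fun a f => ?_ }, hℓ, fun f => ?_, fun ψ hψ hψ0 => ?_⟩
  · refine tendsto_nhds_unique (hℓ (f + g)) (((hℓ f).add (hℓ g)).congr' ?_)
    filter_upwards [hU (good_ev (K := K))] with ε hε
    rw [← cE_add hε (hTb f) (hTb g)]
    congr 1
    funext v
    exact (hadd f g v).symm
  · refine tendsto_nhds_unique (hℓ (a • f)) (((hℓ f).const_mul a).congr fun ε => ?_)
    rw [← cE_const_mul]
    congr 1
    funext v
    exact (hsmul a f v).symm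
  · change ‖ℓ f‖ ^ 2 ≤ _
    have hfc : Continuous fun x => f x := f.continuous
    have hsc : Continuous (sym W f) := continuous_sym W f.continuous
    -- the law applied to `‖sym W f‖²`
    have h1 := hlaw (fun x => ((‖sym W f x‖ ^ 2 : ℝ) : ℂ)) (by fun_prop) (fun w hw x => by
      rw [sym_act W f hw])
    have h2 := ((Complex.continuous_re.tendsto _).comp h1).mul
      ((Complex.continuous_re.tendsto _).comp hh)
    rw [Complex.ofReal_re] at h2
    have h3 : ‖ℓ f‖ ^ 2 ≤ (((κ : ℂ) * (Nat.card W : ℂ))⁻¹ *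
        ∫ x, ((‖sym W f x‖ ^ 2 : ℝ) : ℂ) * (dens Φ x : ℂ) ∂(vol (Fin r))).re * m := by
      refine le_of_tendsto_of_tendsto ((hℓ f).norm.pow 2) h2 ?_
      filter_upwards [hU (good_ev (K := K))] with ε hε
      simp only [Function.comp]
      have e0 := cs_cE hε (a := fun v => (Real.sqrt (a v) : ℂ) * sym W f (θ v))
        (b := fun v => (Real.sqrt (a v) : ℂ) * h v) (A := Nat.card W * ‖f‖) (B := B')
        (fun v => by
          rw [norm_mul, Complex.norm_real, Real.norm_of_nonneg (hs0 v)]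
          exact (mul_le_of_le_one_left (norm_nonneg _) (hs1 v)).trans (sym_norm_le f (θ v)))
        (fun v => by
          rw [norm_mul, Complex.norm_real, Real.norm_of_nonneg (hs0 v)]
          exact (mul_le_of_le_one_left (norm_nonneg _) (hs1 v)).trans (hhB v))
      have e1 : (fun v => (Real.sqrt (a v) : ℂ) * sym W f (θ v) * ((Real.sqrt (a v) : ℂ) * h v)) =
          T f := by
        funext v
        rw [hT]
        simp only
        have := congrArg (fun x : ℝ => (x : ℂ)) (hss v)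
        push_cast at this
        rw [← this]
        ring
      have e2 : (fun v => ((‖(Real.sqrt (a v) : ℂ) * sym W f (θ v)‖ ^ 2 : ℝ) : ℂ)) =
          fun v => (a v : ℂ) * ((‖sym W f (θ v)‖ ^ 2 : ℝ) : ℂ) := by
        funext v
        rw [norm_mul, Complex.norm_real, Real.norm_of_nonneg (hs0 v), mul_pow,
          Real.sq_sqrt (ha v).1, Complex.ofReal_mul]
      have e3 : (fun v => ((‖(Real.sqrt (a v) : ℂ) * h v‖ ^ 2 : ℝ) : ℂ)) =
          fun v => ((a v * ‖h v‖ ^ 2 : ℝ) : ℂ) := by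
        funext v
        rw [norm_mul, Complex.norm_real, Real.norm_of_nonneg (hs0 v), mul_pow,
          Real.sq_sqrt (ha v).1]
      rw [e1, e2, e3] at e0
      exact e0
    have h4 : (((κ : ℂ) * (Nat.card W : ℂ))⁻¹ *
        ∫ x, ((‖sym W f x‖ ^ 2 : ℝ) : ℂ) * (dens Φ x : ℂ) ∂(vol (Fin r))).re =
        ((κ : ℝ) * (Nat.card W : ℝ))⁻¹ * ∫ x, ‖sym W f x‖ ^ 2 * dens Φ x ∂(vol (Fin r)) := by
      have e1 : (fun x => ((‖sym W f x‖ ^ 2 : ℝ) : ℂ) * (dens Φ x : ℂ)) =
          fun x => ((‖sym W f x‖ ^ 2 * dens Φ x : ℝ) : ℂ) := by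
        funext x
        push_cast
        rfl
      rw [e1, integral_complex_ofReal]
      have e2 : ((κ : ℂ) * (Nat.card W : ℂ))⁻¹ = ((((κ : ℝ) * (Nat.card W : ℝ))⁻¹ : ℝ) : ℂ) := by
        push_cast
        rfl
      rw [e2, Complex.re_ofReal_mul, Complex.ofReal_re]
    rw [h4] at h3
    refine h3.trans ?_
    -- Cauchy-Schwarz for the group
    have h5 : ∀ x, ‖sym W f x‖ ^ 2 * dens Φ x ≤
        ∑ w : W, (Nat.card W : ℝ) * (‖f (act (w : Auts (Fin r)) x)‖ ^ 2 * dens Φ x) := by
      intro x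
      rw [← Finset.mul_sum, ← Finset.sum_mul, ← mul_assoc]
      refine mul_le_mul_of_nonneg_right ?_ (Pool.Agent.Y798.FC.dens_nonneg Φ x)
      have e1 : ‖sym W f x‖ ≤ ∑ w : W, ‖f (act (w : Auts (Fin r)) x)‖ := norm_sum_le _ _
      refine (pow_le_pow_left₀ (norm_nonneg _) e1 2).trans ?_
      have e2 := sq_sum_le_card_mul_sum_sq (s := (Finset.univ : Finset W))
        (f := fun w => ‖f (act (w : Auts (Fin r)) x)‖)
      rwa [Finset.card_univ, ← Nat.card_eq_fintype_card] at e2
    have hI : ∀ w : W, Integrable (fun x => (Nat.card W : ℝ) *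
        (‖f (act (w : Auts (Fin r)) x)‖ ^ 2 * dens Φ x)) (vol (Fin r)) := fun w => by
      have hc : Continuous fun x => f (act (w : Auts (Fin r)) x) := hfc.comp (continuous_act _)
      exact integrable_cont_real _ (continuous_const.mul ((hc.norm.pow 2).mul hdc))
    have h6 : ∫ x, ‖sym W f x‖ ^ 2 * dens Φ x ∂(vol (Fin r)) ≤
        (Nat.card W : ℝ) * ((Nat.card W : ℝ) * ∫ x, ‖f x‖ ^ 2 * dens Φ x ∂(vol (Fin r))) := by
      have e1 := integral_mono (μ := vol (Fin r))
        (integrable_cont_real _ (by fun_prop : Continuous fun x => ‖sym W f x‖ ^ 2 * dens Φ x))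
        (integrable_finsetSum Finset.univ fun w _ => hI w) h5
      refine e1.trans (le_of_eq ?_)
      rw [integral_finsetSum _ fun w _ => hI w]
      have e2 : ∀ w : W, ∫ x, (Nat.card W : ℝ) *
          (‖f (act (w : Auts (Fin r)) x)‖ ^ 2 * dens Φ x) ∂(vol (Fin r)) =
          (Nat.card W : ℝ) * ∫ x, ‖f x‖ ^ 2 * dens Φ x ∂(vol (Fin r)) := by
        intro w
        rw [integral_const_mul]
        congr 1
        exact int_act hΦ w.2 (g := fun x => ‖f x‖ ^ 2) (by fun_prop)
      rw [Finset.sum_congr rfl fun w _ => e2 w, Finset.sum_const, Finset.card_univ, nsmul_eq_mul,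
        Nat.card_eq_fintype_card]
    have h7 : ((κ : ℝ) * (Nat.card W : ℝ))⁻¹ * ∫ x, ‖sym W f x‖ ^ 2 * dens Φ x ∂(vol (Fin r)) ≤
        ((κ : ℝ) * (Nat.card W : ℝ))⁻¹ * ((Nat.card W : ℝ) *
          ((Nat.card W : ℝ) * ∫ x, ‖f x‖ ^ 2 * dens Φ x ∂(vol (Fin r)))) :=
      mul_le_mul_of_nonneg_left h6 (inv_nonneg.mpr (mul_nonneg hκ0.le hcW.le))
    refine (mul_le_mul_of_nonneg_right h7 hm0).trans (le_of_eq ?_)
    field_simp
  · change ‖ℓ ⟨fun x => (ψ x : ℂ), Complex.continuous_ofReal.comp hψ⟩‖ ≤ _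
    set f : C(UnitAddTorus (Fin r), ℂ) := ⟨fun x => (ψ x : ℂ), Complex.continuous_ofReal.comp hψ⟩
      with hf
    have hfx : ∀ x, f x = (ψ x : ℂ) := fun x => rfl
    have hsreal : ∀ x, sym W f x = ((∑ w : W, ψ (act (w : Auts (Fin r)) x) : ℝ) : ℂ) := by
      intro x
      unfold sym
      push_cast
      rfl
    have hsnn : ∀ x, 0 ≤ ∑ w : W, ψ (act (w : Auts (Fin r)) x) := fun x =>
      Finset.sum_nonneg fun _ _ => hψ0 _
    have hsc : Continuous (sym W f) := continuous_sym W f.continuous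
    have h1 := hlaw (sym W f) hsc (fun w hw x => sym_act W f hw x)
    have h2 := ((Complex.continuous_re.tendsto _).comp h1).const_mul B
    have hab : ∀ v, ‖(a v : ℂ) * sym W f (θ v)‖ ≤ Nat.card W * ‖f‖ := fun v => by
      rw [norm_mul]
      exact (mul_le_of_le_one_left (norm_nonneg _) (ha1 v)).trans (sym_norm_le f (θ v))
    have h3 : ‖ℓ f‖ ≤ B * (((κ : ℂ) * (Nat.card W : ℂ))⁻¹ *
        ∫ x, sym W f x * (dens Φ x : ℂ) ∂(vol (Fin r))).re := by
      refine le_of_tendsto_of_tendsto (hℓ f).norm h2 ?_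
      filter_upwards [hU (good_ev (K := K))] with ε hε
      simp only [Function.comp]
      refine (norm_cE_le' hε (hTb f)).trans ?_
      have hb1 : ∀ v, ‖((‖T f v‖ : ℝ) : ℂ)‖ ≤ Nat.card W * ‖f‖ * B' := fun v => by
        rw [Complex.norm_real, norm_norm]
        exact hTb f v
      rw [cE_re hε hb1, cE_re hε hab, avg_eq, avg_eq, ← tsum_mul_left]
      have hsb : ∀ v, |((a v : ℂ) * sym W f (θ v)).re| ≤ Nat.card W * ‖f‖ := fun v =>
        (Complex.abs_re_le_norm _).trans (hab v)
      refine Summable.tsum_le_tsum (fun v => ?_)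
        (summ_norm hε (B := Nat.card W * ‖f‖ * B') fun v => by
          rw [Complex.ofReal_re, abs_norm]; exact hTb f v)
        ((summ_norm hε hsb).mul_left B)
      rw [Complex.ofReal_re, hT]
      simp only
      rw [norm_mul, norm_mul, hsreal, Complex.norm_real, Complex.norm_real, Real.norm_eq_abs,
        Real.norm_eq_abs, abs_of_nonneg (hsnn _), abs_of_nonneg (ha v).1,
        Complex.re_ofReal_mul, Complex.ofReal_re]
      have e1 := mul_le_mul_of_nonneg_left (hB v) (hsnn (θ v))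
      have e1' := mul_le_mul_of_nonneg_left e1 (ha v).1
      have e2 := mul_le_mul_of_nonneg_left e1' (wt_nonneg hε v)
      refine e2.trans (le_of_eq ?_)
      ring
    refine h3.trans (le_of_eq ?_)
    have hI : ∀ w : W, Integrable (fun x => ψ (act (w : Auts (Fin r)) x) * dens Φ x)
        (vol (Fin r)) := fun w => by
      have hc : Continuous fun x => ψ (act (w : Auts (Fin r)) x) := hψ.comp (continuous_act _)
      exact integrable_cont_real _ (hc.mul hdc)
    have e1 : (fun x => sym W f x * (dens Φ x : ℂ)) =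
        fun x => ((∑ w : W, ψ (act (w : Auts (Fin r)) x) * dens Φ x : ℝ) : ℂ) := by
      funext x
      rw [hsreal, ← Complex.ofReal_mul, Finset.sum_mul]
    rw [e1, integral_complex_ofReal, integral_finsetSum _ fun w _ => hI w]
    have e3 : ∀ w : W, ∫ x, ψ (act (w : Auts (Fin r)) x) * dens Φ x ∂(vol (Fin r)) =
        ∫ x, ψ x * dens Φ x ∂(vol (Fin r)) := fun w => int_act hΦ w.2 hψ
    rw [Finset.sum_congr rfl fun w _ => e3 w, Finset.sum_const, Finset.card_univ, nsmul_eq_mul,
      ← Nat.card_eq_fintype_card]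
    have e2 : ((κ : ℂ) * (Nat.card W : ℂ))⁻¹ = ((((κ : ℝ) * (Nat.card W : ℝ))⁻¹ : ℝ) : ℂ) := by
      push_cast
      rfl
    rw [e2, Complex.re_ofReal_mul, Complex.ofReal_re]
    field_simp

end Pool.Agent.Y798.OG.FunW
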