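import Pool.Agent.Y798.OG.Stm
import Pool.Agent.Y798.FC.Stm5
import Pool.Agent.Y798.FC.Fin

/-! Orthogonal groups: components of the space of classes, and the statements of the jobs. -/

set_option autoImplicit false

namespace Pool.Agent.Y798.OG

open Complex Filter Topology MeasureTheory UnitAddTorus NumberField IsDedekindDomain
  Pool.Agent.W540.BE Pool.Agent.TH553.RS Pool.Agent.TH553.ST Pool.Agent.Y798.FC
open Pool.Agent.Y139.ID (wordFun chiW ev es idx SD IsHaarOn annih avg)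

/-! ### General statements about weights -/

/-- job OG-FEJ: the numbers `± q_v^{-iτ}`, `τ ≠ 0`, are not concentrated at `1` on a set of primes of
positive density -/
def StmFej : Prop := ∀ (K : Type) [Field K] [NumberField K] (U : Ultrafilter ℝ),
  (U : Filter ℝ) ≤ 𝓝[>] 0 → ∀ a : HeightOneSpectrum (𝓞 K) → ℝ, (∀ v, 0 ≤ a v ∧ a v ≤ 1) →
  ∀ (τ : ℝ), τ ≠ 0 → ∀ s : ℝ, (s = 1 ∨ s = -1) →
    M (nm K) U (fun v => a v * (s * (ht τ v).re)) = M (nm K) U a → M (nm K) U a = 0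

/-- job OG-RIG: rigidity with weights -/
def StmRig : Prop := ∀ (K : Type) [Field K] [NumberField K] (U : Ultrafilter ℝ),
  (U : Filter ℝ) ≤ 𝓝[>] 0 → ∀ a : HeightOneSpectrum (𝓞 K) → ℝ, (∀ v, 0 ≤ a v ∧ a v ≤ 1) →
  ∀ (ι : Type) [Fintype ι] (u : ι → HeightOneSpectrum (𝓞 K) → ℂ), (∀ i v, ‖u i v‖ = 1) →
    M (nm K) U (fun v => a v * (∑ i, u i v).re) = Fintype.card ι * M (nm K) U a →
    M (nm K) U (fun v => a v * (∏ i, u i v).re) = M (nm K) U a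

/-- job OG-FUN: the functional with weights and heights -/
def StmFun2 : Prop := ∀ (K : Type) [Field K] [NumberField K] (r : ℕ)
  (W : Subgroup (Auts (Fin r))) [Fintype W] (θ : HeightOneSpectrum (𝓞 K) → UnitAddTorus (Fin r))
  (U : Ultrafilter ℝ), (U : Filter ℝ) ≤ 𝓝[>] 0 →
  ∀ a : HeightOneSpectrum (𝓞 K) → ℝ, (∀ v, 0 ≤ a v ∧ a v ≤ 1) →
  ∀ (ν : Measure (UnitAddTorus (Fin r))), IsFiniteMeasure ν →
    (∀ f : UnitAddTorus (Fin r) → ℂ, Continuous f →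
      Tendsto (cE fun v => (a v : ℂ) * f (θ v)) (U : Filter ℝ) (𝓝 (∫ x, f x ∂ν))) →
    ∀ (z : HeightOneSpectrum (𝓞 K) → ℂ), (∀ v, ‖z v‖ = 1) → ∀ κ : Fin r → ℤ,
    ∃ N : C(UnitAddTorus (Fin r), ℂ) →ₗ[ℂ] ℂ,
      (∀ f, Tendsto (cE fun v => (a v : ℂ) *
          (sym W (f * mFourier κ : C(UnitAddTorus (Fin r), ℂ)) (θ v) * z v))
        (U : Filter ℝ) (𝓝 (N f))) ∧
      ∀ f : C(UnitAddTorus (Fin r), ℂ), ‖N f‖ ≤ ∫ x, ‖f x‖ ∂(smeas W ν)

/-- job OG-VAN: no oscillation on a component -/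
def StmVan : Prop := ∀ (r : ℕ) (W : Subgroup (Auts (Fin r))), Finite W → NoInv W →
  ∀ Φ : Finset (Fin r → ℤ), (∀ α ∈ Φ, α ≠ 0) → ∃ F : Finset (Fin r → ℤ),
    ∀ (K : Type) [Field K] [NumberField K] (θ : HeightOneSpectrum (𝓞 K) → UnitAddTorus (Fin r))
      (a : HeightOneSpectrum (𝓞 K) → ℝ), (∀ v, 0 ≤ a v ∧ a v ≤ 1) → ∀ κ : ℕ, 0 < κ →
      (∀ (U : Ultrafilter ℝ), (U : Filter ℝ) ≤ 𝓝[>] 0 → ∃ ν : Measure (UnitAddTorus (Fin r)),
        IsFiniteMeasure ν ∧ ∀ f : UnitAddTorus (Fin r) → ℂ, Continuous f →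
          Tendsto (cE fun v => (a v : ℂ) * f (θ v)) (U : Filter ℝ) (𝓝 (∫ x, f x ∂ν))) →
      ∀ c : (Fin r → ℤ) → ℤ,
      (∀ μ, Tendsto (cE fun v => (a v : ℂ) * ((κ : ℂ) * orb W μ (θ v))) (𝓝[>] 0)
        (𝓝 (c μ : ℂ))) →
      (∀ μ ∈ F, (c μ : ℂ) = dC Φ μ) →
      ∀ τ : ℝ, τ ≠ 0 → (∀ μ, ∃ n : ℤ, Tendsto (cE fun v => (a v : ℂ) *
        ((κ : ℂ) * orb W μ (θ v)) * ht τ v) (𝓝[>] 0) (𝓝 (n : ℂ))) →
      ∀ f : UnitAddTorus (Fin r) → ℂ, Continuous f → (∀ w ∈ W, ∀ x, f (act w x) = f x) →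
        Tendsto (cE fun v => (a v : ℂ) * f (θ v) * ht τ v) (𝓝[>] 0) (𝓝 0)

/-! ### Components -/

/-- A component of the space of classes in `U(N)`: the classes are `emb x`, `x` in the torus of rank `r`; its
Weyl group is the group of signed permutations, and the law to be expected on it is
`(κ |W|)⁻¹ dens Φ`. -/
structure Part (N : ℕ) where
  r : ℕ
  emb : UnitAddTorus (Fin r) → UnitAddTorus (Fin N)
  ret : UnitAddTorus (Fin N) → UnitAddTorus (Fin r)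
  cemb : Continuous emb
  cret : Continuous ret
  ret_emb : ∀ x, ret (emb x) = x
  sd : ∀ x, emb x ∈ SD N
  equi : ∀ w ∈ sympW r, ∀ x, ∃ σ : Equiv.Perm (Fin N), ∀ j, emb (act w x) j = emb x (σ j)
  Φ : Finset (Fin r → ℤ)
  ne_zero : ∀ α ∈ Φ, α ≠ 0
  inv : ∀ w ∈ sympW r, ∀ x, dens Φ (act w x) = dens Φ x
  κ : ℕ
  κ_pos : 0 < κ

variable {N : ℕ} {I : Type} [Fintype I]

/-- the set of the classes -/
def classes (P : I → Part N) : Set (UnitAddTorus (Fin N)) := ⋃ i, Set.range (P i).emb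

/-- the class functions which are supported on one component are integral combinations of traces -/
def Alg (P : I → Part N) : Prop := ∀ i, ∀ μ : Fin (P i).r → ℤ,
  ∃ G ∈ Submodule.span ℤ (wordFun N),
    (∀ x, G ((P i).emb x) = ((P i).κ : ℂ) * orb (sympW (P i).r) μ x) ∧
    ∀ j, j ≠ i → ∀ x, G ((P j).emb x) = 0

/-- the expected mean value of a class function -/
noncomputable def hm (P : I → Part N) (f : UnitAddTorus (Fin N) → ℂ) : ℂ :=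
  ∑ i, (((P i).κ : ℂ) * (Nat.card (sympW (P i).r) : ℂ))⁻¹ *
    ∫ x, f ((P i).emb x) * (dens (P i).Φ x : ℂ) ∂(vol (Fin (P i).r))

/-- the mean value for a family of cosets -/
noncomputable def cm (P : I → Part N) (σ : ∀ i, Measure (UnitAddTorus (Fin (P i).r)))
    (a : ∀ i, UnitAddTorus (Fin (P i).r)) (f : UnitAddTorus (Fin N) → ℝ) : ℝ :=
  ∑ i, ((P i).κ : ℝ)⁻¹ * cosetMean (sympW (P i).r) (P i).Φ (σ i) (a i) fun x => f ((P i).emb x)

/-- symmetric functions -/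
def Sy {E : Type} (f : UnitAddTorus (Fin N) → E) : Prop :=
  ∀ (σ : Equiv.Perm (Fin N)) (x : UnitAddTorus (Fin N)), f (fun j => x (σ j)) = f x

/-- job OG-LAW: the law of a probability measure with integral moments -/
def StmLaw : Prop := ∀ (N : ℕ) (I : Type) [Fintype I] (P : I → Part N), Alg P →
  ∃ R : ℕ, ∀ ν : Measure (UnitAddTorus (Fin N)), IsProbabilityMeasure ν → ν (classes P)ᶜ = 0 →
    (∀ (r : ℕ) (k : Fin r → ℕ), (∀ j, k j ≤ N) → ∃ n : ℤ, ∫ x, chiW k x ∂ν = n) →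
    (∀ (r : ℕ) (k : Fin r → ℕ), r ≤ R → (∀ j, k j ≤ N) → ∫ x, chiW k x ∂ν = hm P (chiW k)) →
    ∃ (Γ : ∀ i, AddSubgroup (Fin (P i).r → ℤ)) (a : ∀ i, UnitAddTorus (Fin (P i).r)),
      (∀ i, Adm (P i).r (Γ i) (a i)) ∧
      ∀ σ : ∀ i, Measure (UnitAddTorus (Fin (P i).r)), (∀ i, IsHaarOn (annih (Γ i)) (σ i)) →
        ∀ f : UnitAddTorus (Fin N) → ℝ, Continuous f → Sy f → ∫ x, f x ∂ν = cm P σ a f

/-- job OG-UNIQ: a measure is determined by the traces -/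
def StmUniq : Prop := ∀ (N : ℕ) (I : Type) [Fintype I] (P : I → Part N), Alg P →
  ∀ ν ν' : Measure (UnitAddTorus (Fin N)), IsProbabilityMeasure ν → IsProbabilityMeasure ν' →
    ν (classes P)ᶜ = 0 → ν' (classes P)ᶜ = 0 →
    (∀ (r : ℕ) (k : Fin r → ℕ), (∀ j, k j ≤ N) → ∫ x, chiW k x ∂ν = ∫ x, chiW k x ∂ν') →
    ∀ f : UnitAddTorus (Fin N) → ℝ, Continuous f → Sy f → ∫ x, f x ∂ν = ∫ x, f x ∂ν'

end Pool.Agent.Y798.OG
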