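import Pool.Agent.Y798.FC.Near

/-! Even orthogonal groups: definitions and statements. -/

set_option autoImplicit false

namespace Pool.Agent.Y798.OG

open MeasureTheory UnitAddTorus Pool.Agent.Y798.FC
open Pool.Agent.Y139.ID (wordFun)

/-- the positive roots `e_i - e_j`, `e_i + e_j` (`i < j`) of `SO(2n)` -/
def dRoots (n : ℕ) : Finset (Fin n → ℤ) :=
  ((Finset.univ.filter fun p : Fin n × Fin n => p.1 < p.2).image
      fun p => Pi.single p.1 1 - Pi.single p.2 1) ∪
    ((Finset.univ.filter fun p : Fin n × Fin n => p.1 < p.2).image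
      fun p => Pi.single p.1 1 + Pi.single p.2 1)

/-- the angles of the eigenvalues of an element of `O(2m+2)` of determinant `1` -/
noncomputable def pos {m : ℕ} (x : UnitAddTorus (Fin (m + 1))) :
    UnitAddTorus (Fin ((m + 1) + (m + 1))) := Fin.append x (-x)

/-- the angles `0, ψ_1, …, ψ_m, 1/2, -ψ_1, …, -ψ_m` of the eigenvalues of an element of `O(2m+2)` of
determinant `-1` -/
noncomputable def neg {m : ℕ} (y : UnitAddTorus (Fin m)) :
    UnitAddTorus (Fin ((m + 1) + (m + 1))) :=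
  Fin.append (Fin.cons 0 y : Fin (m + 1) → UnitAddCircle)
    (Fin.cons (((1 / 2 : ℝ) : UnitAddCircle)) (-y) : Fin (m + 1) → UnitAddCircle)

/-- job OG-D: the Weyl density of `SO(2n)`, symmetrized by the signed permutations -/
def StmD : Prop := ∀ m : ℕ, (∀ α ∈ dRoots (m + 1), α ≠ 0) ∧
  (∀ w ∈ sympW (m + 1), ∀ x, dens (dRoots (m + 1)) (act w x) = dens (dRoots (m + 1)) x) ∧
  2 * ∫ x, dens (dRoots (m + 1)) x ∂(vol (Fin (m + 1))) = Nat.card (sympW (m + 1))

/-- job OG-ALG: class functions which are supported on one component are integer combinations of the traces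
of tensor products of exterior powers -/
def StmAlg : Prop := ∀ m : ℕ,
  (∀ μ : Fin (m + 1) → ℤ, ∃ G ∈ Submodule.span ℤ (wordFun ((m + 1) + (m + 1))),
    (∀ x : UnitAddTorus (Fin (m + 1)), G (pos x) = orb (sympW (m + 1)) μ x) ∧
    ∀ y : UnitAddTorus (Fin m), G (neg y) = 0) ∧
  ∀ μ : Fin m → ℤ, ∃ G ∈ Submodule.span ℤ (wordFun ((m + 1) + (m + 1))),
    (∀ x : UnitAddTorus (Fin (m + 1)), G (pos x) = 0) ∧
    ∀ y : UnitAddTorus (Fin m), G (neg y) = 2 * orb (sympW m) μ y

end Pool.Agent.Y798.OG
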