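import Pool.Agent.Y798.OG.Dir

/-! Orthogonal groups: the law in the sense of natural density. -/

set_option autoImplicit false

namespace Pool.Agent.Y798.OG

open Filter Topology MeasureTheory UnitAddTorus NumberField IsDedekindDomain
  Pool.Agent.W540.BE Pool.Agent.TH553.RS Pool.Agent.TH553.ST Pool.Agent.Y798.FC
open Pool.Agent.Y139.ID (Good good_ev integrable_cont integrable_cont_real IsHaarOn annih ev es
  chiW wordFun idx chiW_eq_sum norm_term norm_chiW_le continuous_chiW SD im_chiW avg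
  continuous_span)

section
variable {N : ℕ} {I : Type} [Fintype I] {P : I → Part N}

theorem dC_inv' {J : Type} [Fintype J] {W : Subgroup (Auts J)} {Φ : Finset (J → ℤ)}
    (hinv : ∀ w ∈ W, ∀ x, dens Φ (act w x) = dens Φ x) {w : Auts J} (hw : w ∈ W) (μ : J → ℤ) :
    dC Φ (w μ) = dC Φ μ := by
  have h1 : dC Φ (w μ) = ∫ x, (fun y => mFourier μ y * (dens Φ y : ℂ)) (act w x) ∂(vol J) := by
    unfold dC
    refine integral_congr_ae (Eventually.of_forall fun x => ?_)
    simp only
    rw [mF_act, hinv w hw]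
  rw [h1, ← integral_map (f := fun y => mFourier μ y * (dens Φ y : ℂ))
    (continuous_act w).measurable.aemeasurable, vol_map]
  · rfl
  · have := continuous_dens Φ
    exact (Continuous.aestronglyMeasurable (by fun_prop))

theorem orb_mean' {J : Type} [Fintype J] {W : Subgroup (Auts J)} {Φ : Finset (J → ℤ)}
    (hW : Finite W) (hinv : ∀ w ∈ W, ∀ x, dens Φ (act w x) = dens Φ x) (μ : J → ℤ) :
    ∫ x, orb W μ x * (dens Φ x : ℂ) ∂(vol J) = (Nat.card W : ℂ) * dC Φ μ := by
  let _ : Fintype W := Fintype.ofFinite W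
  have hd := continuous_dens Φ
  have h1 : ∀ x, orb W μ x * (dens Φ x : ℂ) =
      ∑ w : W, mFourier ((w : Auts J) μ) x * (dens Φ x : ℂ) := fun x => by
    rw [orb_eq, Finset.sum_mul]
  simp only [h1]
  rw [integral_finsetSum _ fun w _ => integrable_cont _ (by fun_prop)]
  have h2 : ∀ w : W, ∫ x, mFourier ((w : Auts J) μ) x * (dens Φ x : ℂ) ∂(vol J) = dC Φ μ :=
    fun w => dC_inv' hinv w.2 μ
  rw [Finset.sum_congr rfl fun w _ => h2 w, Finset.sum_const, Finset.card_univ, nsmul_eq_mul,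
    Nat.card_eq_fintype_card]

/-- `hm` is linear -/
theorem hm_add {f g : UnitAddTorus (Fin N) → ℂ} (hf : Continuous f) (hg : Continuous g) :
    hm P (f + g) = hm P f + hm P g := by
  unfold hm
  rw [← Finset.sum_add_distrib]
  refine Finset.sum_congr rfl fun i _ => ?_
  have h1 := (P i).cemb
  have h2 := continuous_dens (P i).Φ
  have j1 : Continuous fun x : UnitAddTorus (Fin (P i).r) =>
      f ((P i).emb x) * (dens (P i).Φ x : ℂ) := by fun_prop
  have j2 : Continuous fun x : UnitAddTorus (Fin (P i).r) =>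
      g ((P i).emb x) * (dens (P i).Φ x : ℂ) := by fun_prop
  have e : ∫ x, (f + g) ((P i).emb x) * (dens (P i).Φ x : ℂ) ∂(vol (Fin (P i).r)) =
      ∫ x, f ((P i).emb x) * (dens (P i).Φ x : ℂ) ∂(vol (Fin (P i).r)) +
      ∫ x, g ((P i).emb x) * (dens (P i).Φ x : ℂ) ∂(vol (Fin (P i).r)) := by
    rw [← integral_add (integrable_cont (vol (Fin (P i).r)) j1)
      (integrable_cont (vol (Fin (P i).r)) j2)]
    refine integral_congr_ae (Eventually.of_forall fun x => ?_)
    simp only [Pi.add_apply]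
    ring
  rw [e, mul_add]

theorem hm_smul (a : ℤ) (f : UnitAddTorus (Fin N) → ℂ) : hm P (a • f) = a * hm P f := by
  unfold hm
  rw [Finset.mul_sum]
  refine Finset.sum_congr rfl fun i _ => ?_
  have e : ∫ x, (a • f) ((P i).emb x) * (dens (P i).Φ x : ℂ) ∂(vol (Fin (P i).r)) =
      (a : ℂ) * ∫ x, f ((P i).emb x) * (dens (P i).Φ x : ℂ) ∂(vol (Fin (P i).r)) := by
    rw [← integral_const_mul]
    refine integral_congr_ae (Eventually.of_forall fun x => ?_)
    simp only [Pi.smul_apply, zsmul_eq_mul]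
    ring
  rw [e]
  ring

theorem span_hm {ν : Measure (UnitAddTorus (Fin N))} [IsFiniteMeasure ν] {R : ℕ}
    (h : ∀ (r : ℕ) (k : Fin r → ℕ), r ≤ R → (∀ j, k j ≤ N) → ∫ x, chiW k x ∂ν = hm P (chiW k))
    {G : UnitAddTorus (Fin N) → ℂ} (hG : G ∈ Submodule.span ℤ (wordFunR N R)) :
    Continuous G ∧ ∫ x, G x ∂ν = hm P G := by
  induction hG using Submodule.span_induction with
  | mem f hf =>
    obtain ⟨r, k, hr, hk, rfl⟩ := hf
    exact ⟨continuous_chiW k, h r k hr hk⟩
  | zero => exact ⟨continuous_const, by simp [hm]⟩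
  | add f g _ _ hf hg =>
    obtain ⟨hfc, h1⟩ := hf
    obtain ⟨hgc, h2⟩ := hg
    refine ⟨hfc.add hgc, ?_⟩
    rw [hm_add hfc hgc, ← h1, ← h2, ← integral_add (integrable_cont _ hfc) (integrable_cont _ hgc)]
    rfl
  | smul a f _ hf =>
    obtain ⟨hfc, h1⟩ := hf
    refine ⟨hfc.const_smul a, ?_⟩
    rw [hm_smul, ← h1, ← integral_const_mul]
    refine integral_congr_ae (Eventually.of_forall fun x => ?_)
    simp only [Pi.smul_apply, zsmul_eq_mul]

/-- the expected value of an orbit sum on a component -/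
theorem hm_orb (hC : StmC) {i : I} {μ : Fin (P i).r → ℤ} {G : UnitAddTorus (Fin N) → ℂ}
    (h1 : ∀ x, G ((P i).emb x) = ((P i).κ : ℂ) * orb (sympW (P i).r) μ x)
    (h2 : ∀ j, j ≠ i → ∀ x, G ((P j).emb x) = 0) : hm P G = dC (P i).Φ μ := by
  classical
  have hfin := (hC (P i).r).fin
  have hcard : (Nat.card (sympW (P i).r) : ℂ) ≠ 0 := by
    have : Nat.card (sympW (P i).r) ≠ 0 := Nat.card_pos.ne'
    exact_mod_cast this
  have hκ : ((P i).κ : ℂ) ≠ 0 := by
    have := (P i).κ_pos.ne'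
    exact_mod_cast this
  unfold hm
  rw [Finset.sum_eq_single i]
  · simp only [h1]
    have h3 : ∫ x, ((P i).κ : ℂ) * orb (sympW (P i).r) μ x * (dens (P i).Φ x : ℂ)
        ∂(vol (Fin (P i).r)) = ((P i).κ : ℂ) * ((Nat.card (sympW (P i).r) : ℂ) *
          dC (P i).Φ μ) := by
      rw [← orb_mean' hfin (P i).inv, ← integral_const_mul]
      refine integral_congr_ae (Eventually.of_forall fun x => ?_)
      simp only
      ring
    rw [h3]
    field_simp
  · intro j _ hj
    simp only [h2 j hj]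
    simp
  · intro h
    exact absurd (Finset.mem_univ i) h

theorem es_sy {N : ℕ} (k : ℕ) : Sy (es k : UnitAddTorus (Fin N) → ℂ) := by
  intro σ x
  unfold es
  refine Finset.sum_bij (fun S _ => S.map σ.toEmbedding) (fun S hS => ?_) (fun S _ T _ h => ?_)
    (fun S hS => ?_) (fun S _ => ?_)
  · rw [Finset.mem_powersetCard] at hS ⊢
    exact ⟨Finset.subset_univ _, by rw [Finset.card_map]; exact hS.2⟩
  · exact Finset.map_injective _ h
  · rw [Finset.mem_powersetCard] at hS
    refine ⟨S.map σ.symm.toEmbedding, ?_, ?_⟩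
    · rw [Finset.mem_powersetCard]
      exact ⟨Finset.subset_univ _, by rw [Finset.card_map]; exact hS.2⟩
    · ext i
      simp
  · rw [Finset.prod_map]
    rfl

theorem chiW_sy {N r : ℕ} (k : Fin r → ℕ) : Sy (chiW k : UnitAddTorus (Fin N) → ℂ) := by
  intro σ x
  unfold chiW
  exact Finset.prod_congr rfl fun j _ => es_sy (k j) σ x

open Classical in
/-- the indicator function of a component -/
noncomputable def ind {K : Type} [Field K] [NumberField K]
    (P : I → Part N) (t : HeightOneSpectrum (𝓞 K) → UnitAddTorus (Fin N)) (i : I)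
    (v : HeightOneSpectrum (𝓞 K)) : ℝ := if t v ∈ Set.range (P i).emb then 1 else 0

theorem ind_bd {K : Type} [Field K] [NumberField K]
    {t : HeightOneSpectrum (𝓞 K) → UnitAddTorus (Fin N)} (i : I) (v : HeightOneSpectrum (𝓞 K)) :
    0 ≤ ind P t i v ∧ ind P t i v ≤ 1 := by
  unfold ind
  split_ifs <;> norm_num

/-- restriction to a component -/
theorem ind_eq {K : Type} [Field K] [NumberField K]
    {t : HeightOneSpectrum (𝓞 K) → UnitAddTorus (Fin N)} (ht : ∀ v, t v ∈ classes P) {i : I}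
    {H : UnitAddTorus (Fin N) → ℂ} (h2 : ∀ j, j ≠ i → ∀ x, H ((P j).emb x) = 0)
    (v : HeightOneSpectrum (𝓞 K)) :
    H (t v) = (ind P t i v : ℂ) * H ((P i).emb ((P i).ret (t v))) := by
  unfold ind
  by_cases h : t v ∈ Set.range (P i).emb
  · rw [if_pos h]
    obtain ⟨x, hx⟩ := h
    rw [← hx, (P i).ret_emb]
    simp
  · rw [if_neg h]
    obtain ⟨j, hj⟩ := Set.mem_iUnion.1 (ht v)
    have hji : j ≠ i := fun e => h (e ▸ hj)
    obtain ⟨x, hx⟩ := hj
    rw [← hx, h2 j hji]
    simp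

theorem orb_zero' (r : ℕ) (hfin : Finite (sympW r)) (x : UnitAddTorus (Fin r)) :
    orb (sympW r) 0 x = (Nat.card (sympW r) : ℂ) := by
  let _ : Fintype (sympW r) := Fintype.ofFinite _
  rw [orb_eq]
  simp [mFourier_zero, Nat.card_eq_fintype_card]

/-- a continuous function which is `1` on a component and `0` on the others -/
theorem exists_ind (hC : StmC) (halg : Alg P) (i : I) : ∃ g : UnitAddTorus (Fin N) → ℂ,
    Continuous g ∧ (∀ x, g ((P i).emb x) = 1) ∧ ∀ j, j ≠ i → ∀ x, g ((P j).emb x) = 0 := by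
  obtain ⟨G, hG, h1, h2⟩ := halg i 0
  have hfin := (hC (P i).r).fin
  have hcard : (Nat.card (sympW (P i).r) : ℂ) ≠ 0 := by
    have : Nat.card (sympW (P i).r) ≠ 0 := Nat.card_pos.ne'
    exact_mod_cast this
  have hκ : ((P i).κ : ℂ) ≠ 0 := by
    have := (P i).κ_pos.ne'
    exact_mod_cast this
  have hGc : Continuous G := continuous_span hG
  refine ⟨fun x => (((P i).κ : ℂ) * (Nat.card (sympW (P i).r) : ℂ))⁻¹ * G x,
    continuous_const.mul hGc, fun x => ?_, fun j hj x => ?_⟩
  · simp only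
    rw [h1, orb_zero' _ hfin]
    field_simp
  · simp only
    rw [h2 j hj, mul_zero]

/-- the limits on a component -/
theorem part_ulaw (hC : StmC) (halg : Alg P) {K : Type} [Field K] [NumberField K]
    {t : HeightOneSpectrum (𝓞 K) → UnitAddTorus (Fin N)} (ht : ∀ v, t v ∈ classes P) (i : I)
    (U : Ultrafilter ℝ) (hU : (U : Filter ℝ) ≤ 𝓝[>] 0) :
    ∃ ν : Measure (UnitAddTorus (Fin (P i).r)), IsFiniteMeasure ν ∧
      ∀ f : UnitAddTorus (Fin (P i).r) → ℂ, Continuous f →
        Tendsto (cE fun v => (ind P t i v : ℂ) * f ((P i).ret (t v))) (U : Filter ℝ)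
          (𝓝 (∫ x, f x ∂ν)) := by
  obtain ⟨g, hgc, hg1, hg2⟩ := exists_ind hC halg i
  obtain ⟨ν, hν⟩ := exists_ulaw t U hU
  have hnull := null_ulaw ht hν
  have hfin0 : IsFiniteMeasure
      ((ν : Measure (UnitAddTorus (Fin N))).restrict (Set.range (P i).emb)) := inferInstance
  have hm := (P i).cret.measurable
  refine ⟨((ν : Measure (UnitAddTorus (Fin N))).restrict (Set.range (P i).emb)).map (P i).ret,
    Measure.isFiniteMeasure_map _ _, fun f hf => ?_⟩
  have hcl : IsClosed (Set.range (P i).emb) := (isCompact_range (P i).cemb).isClosed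
  have hc := (P i).cret
  have h1 := hν (fun x => g x * f ((P i).ret x)) (by fun_prop)
  have h2 : ∫ x, g x * f ((P i).ret x) ∂(ν : Measure (UnitAddTorus (Fin N))) =
      ∫ x, f x ∂(((ν : Measure (UnitAddTorus (Fin N))).restrict
        (Set.range (P i).emb)).map (P i).ret) := by
    rw [integral_map hm.aemeasurable hf.aestronglyMeasurable,
      ← integral_indicator hcl.measurableSet]
    refine integral_congr_ae ?_
    have hae : ∀ᵐ x ∂(ν : Measure (UnitAddTorus (Fin N))), x ∈ classes P := by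
      rw [ae_iff]
      exact hnull
    filter_upwards [hae] with x hx
    by_cases h : x ∈ Set.range (P i).emb
    · rw [Set.indicator_of_mem h]
      obtain ⟨y, rfl⟩ := h
      rw [hg1, one_mul]
    · rw [Set.indicator_of_notMem h]
      obtain ⟨j, hj⟩ := Set.mem_iUnion.1 hx
      have hji : j ≠ i := fun e => h (e ▸ hj)
      obtain ⟨y, rfl⟩ := hj
      rw [hg2 j hji, zero_mul]
  rw [← h2]
  refine h1.congr fun ε => ?_
  congr 1
  funext v
  have h3 := ind_eq ht (i := i) (H := fun x => g x * f ((P i).ret x))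
    (fun j hj x => by simp only [hg2 j hj, zero_mul]) v
  rw [h3, hg1, (P i).ret_emb, one_mul]

/-- the choice of `F` and of `R` for the heights -/
theorem van_parts (hvan : StmVan) (hC : StmC) (halg : Alg P) : ∃ R : ℕ,
    ∀ (K : Type) [Field K] [NumberField K] (t : HeightOneSpectrum (𝓞 K) → UnitAddTorus (Fin N)),
      (∀ v, t v ∈ classes P) → ∀ ν : Measure (UnitAddTorus (Fin N)), IsProbabilityMeasure ν →
      (∀ (r : ℕ) (k : Fin r → ℕ), (∀ j, k j ≤ N) → ∃ n : ℤ, ∫ x, chiW k x ∂ν = n ∧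
        Tendsto (cE fun v => chiW k (t v)) (𝓝[>] 0) (𝓝 (n : ℂ))) →
      (∀ (r : ℕ) (k : Fin r → ℕ), r ≤ R → (∀ j, k j ≤ N) → ∫ x, chiW k x ∂ν = hm P (chiW k)) →
      ∀ τ : ℝ, τ ≠ 0 → (∀ (r : ℕ) (k : Fin r → ℕ), (∀ j, k j ≤ N) →
        ∃ n : ℤ, Tendsto (cE fun v => chiW k (t v) * ht τ v) (𝓝[>] 0) (𝓝 (n : ℂ))) →
      ∀ f : UnitAddTorus (Fin N) → ℂ, Continuous f → Sy f →
        Tendsto (cE fun v => f (t v) * ht τ v) (𝓝[>] 0) (𝓝 0) := by
  classical
  have halg' := halg
  choose G hG hG1 hG2 using halg'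
  choose R0 hR0 using fun i μ => span_R (hG i μ)
  have hv := fun i => hvan (P i).r (sympW (P i).r) (hC (P i).r).fin (noInv_symp _) (P i).Φ
    (P i).ne_zero
  choose F hF using hv
  refine ⟨Finset.univ.sup fun i => (F i).sup (R0 i), fun K _ _ t ht0 ν hν hw hR τ hτ hn f hf hfs => ?_⟩
  -- the limits of the orbit sums
  have hlim : ∀ i μ, ∃ c : ℤ, Tendsto (cE fun v => G i μ (t v)) (𝓝[>] 0) (𝓝 (c : ℂ)) ∧
      ∫ x, G i μ x ∂ν = c := by
    intro i μ
    have h1 : ∀ {G : UnitAddTorus (Fin N) → ℂ}, G ∈ Submodule.span ℤ (wordFun N) →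
        Continuous G ∧ ∃ c : ℤ, Tendsto (cE fun v => G (t v)) (𝓝[>] 0) (𝓝 (c : ℂ)) ∧
          ∫ x, G x ∂ν = c := by
      intro G hG
      induction hG using Submodule.span_induction with
      | mem f hf =>
        obtain ⟨r, k, hk, rfl⟩ := hf
        obtain ⟨n, h1, h2⟩ := hw r k hk
        exact ⟨continuous_chiW k, n, h2, h1⟩
      | zero =>
        refine ⟨continuous_const, 0, ?_, by simp⟩
        rw [Int.cast_zero]
        refine tendsto_const_nhds.congr fun ε => ?_
        simp [cE]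
      | add f g _ _ hf hg =>
        obtain ⟨hfc, n, h1, h2⟩ := hf
        obtain ⟨hgc, m, h3, h4⟩ := hg
        refine ⟨hfc.add hgc, n + m, ?_, ?_⟩
        · obtain ⟨B, -, hB⟩ := cont_bd hfc
          obtain ⟨C, -, hC'⟩ := cont_bd hgc
          push_cast
          refine (h1.add h3).congr' ?_
          filter_upwards [good_ev (K := K)] with ε hε
          rw [← cE_add hε (fun v => hB _) (fun v => hC' _)]
          rfl
        · push_cast
          rw [← h2, ← h4, ← integral_add (integrable_cont _ hfc) (integrable_cont _ hgc)]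
          rfl
      | smul a f _ hf =>
        obtain ⟨hfc, n, h1, h2⟩ := hf
        refine ⟨hfc.const_smul a, a * n, ?_, ?_⟩
        · push_cast
          refine (h1.const_mul (a : ℂ)).congr fun ε => ?_
          rw [← cE_const_mul]
          simp only [Pi.smul_apply, zsmul_eq_mul]
        · push_cast
          rw [← h2, ← integral_const_mul]
          refine integral_congr_ae (Eventually.of_forall fun x => ?_)
          simp only [Pi.smul_apply, zsmul_eq_mul]
    exact (h1 (hG i μ)).2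
  choose c hc1 hc2 using hlim
  have hGt : ∀ i μ v, G i μ (t v) = (ind P t i v : ℂ) *
      (((P i).κ : ℂ) * orb (sympW (P i).r) μ ((P i).ret (t v))) := by
    intro i μ v
    rw [ind_eq ht0 (hG2 i μ), hG1]
  have hcF : ∀ i, ∀ μ ∈ F i, (c i μ : ℂ) = dC (P i).Φ μ := by
    intro i μ hμ
    rw [← hc2, ← hm_orb hC (hG1 i μ) (hG2 i μ)]
    refine (span_hm hR (hR0 i μ _ ?_)).2
    exact (Finset.le_sup hμ).trans
      (Finset.le_sup (f := fun i => (F i).sup (R0 i)) (Finset.mem_univ i))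
  have hnG : ∀ i μ, ∃ n : ℤ, Tendsto (cE fun v => G i μ (t v) * ht τ v) (𝓝[>] 0)
      (𝓝 (n : ℂ)) := fun i μ => (span_lim (S := wordFun N) (by
      rintro f ⟨r, k, -, rfl⟩
      exact continuous_chiW k) (norm_ht τ) t (by
      rintro f ⟨r, k, hk, rfl⟩
      exact hn r k hk) (hG i μ)).2
  have hpart : ∀ i, Tendsto (cE fun v => (ind P t i v : ℂ) * f ((P i).emb ((P i).ret (t v))) *
      ht τ v) (𝓝[>] 0) (𝓝 0) := by
    intro i
    refine hF i K (fun v => (P i).ret (t v)) (ind P t i) (ind_bd i) (P i).κ (P i).κ_pos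
      (part_ulaw hC halg ht0 i) (c i) (fun μ => ?_) (hcF i) τ hτ (fun μ => ?_)
      (fun x => f ((P i).emb x)) (hf.comp (P i).cemb) (fun w hw' x => ?_)
    · exact (hc1 i μ).congr fun ε => by
        congr 1
        funext v
        exact hGt i μ v
    · obtain ⟨n, hn'⟩ := hnG i μ
      refine ⟨n, hn'.congr fun ε => ?_⟩
      congr 1
      funext v
      rw [hGt]
    · obtain ⟨σ, hσ⟩ := (P i).equi w hw' x
      have e : (P i).emb (act w x) = fun j => (P i).emb x (σ j) := funext hσ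
      rw [e]
      exact hfs σ _
  -- the components are disjoint
  have hdis : ∀ v, ∀ i, t v ∈ Set.range (P i).emb → ∀ j, j ≠ i → ind P t j v = 0 := by
    intro v i hi j hj
    unfold ind
    rw [if_neg]
    intro hj'
    obtain ⟨g, -, hg1, hg2⟩ := exists_ind hC halg i
    obtain ⟨x, hx⟩ := hi
    obtain ⟨y, hy⟩ := hj'
    have h1 := hg1 x
    rw [hx, ← hy, hg2 j hj] at h1
    exact zero_ne_one h1
  have hsum : ∀ v, f (t v) * ht τ v = ∑ i, (ind P t i v : ℂ) *
      f ((P i).emb ((P i).ret (t v))) * ht τ v := by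
    intro v
    obtain ⟨i, hi⟩ := Set.mem_iUnion.1 (ht0 v)
    rw [Finset.sum_eq_single i]
    · have h1 : ind P t i v = 1 := by
        unfold ind
        rw [if_pos hi]
      obtain ⟨x, hx⟩ := hi
      rw [h1, ← hx, (P i).ret_emb]
      simp
    · intro j _ hj
      rw [hdis v i hi j hj]
      simp
    · intro h
      exact absurd (Finset.mem_univ i) h
  obtain ⟨B, hB0, hB⟩ := cont_bd hf
  have h1 : Tendsto (fun ε => ∑ i, cE (fun v => (ind P t i v : ℂ) *
      f ((P i).emb ((P i).ret (t v))) * ht τ v) ε) (𝓝[>] 0) (𝓝 (∑ i : I, (0 : ℂ))) :=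
    tendsto_finsetSum _ fun i _ => hpart i
  rw [Finset.sum_const_zero] at h1
  refine h1.congr' ?_
  filter_upwards [good_ev (K := K)] with ε hε
  rw [← cE_sum hε (B := B) Finset.univ (fun i v => by
    rw [norm_mul, norm_mul, norm_ht, mul_one, Complex.norm_real, Real.norm_eq_abs,
      abs_of_nonneg (ind_bd (t := t) i v).1]
    calc ind P t i v * ‖f ((P i).emb ((P i).ret (t v)))‖ ≤ 1 * B :=
          mul_le_mul (ind_bd (t := t) i v).2 (hB _) (norm_nonneg _) zero_le_one
      _ = B := one_mul B)]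
  congr 1
  funext v
  exact (hsum v).symm

/-- **The criterion for a family of components.** -/
theorem mainP (him : StmIm) (htaub : StmTaub) (hC : StmC) (hlawS : StmLaw) (huniq : StmUniq)
    (hvan : StmVan) (hmn : StmMn) (halg : Alg P) : ∃ R : ℕ, LawR P R ∧
    ∀ (K : Type) [Field K] [NumberField K] (t : HeightOneSpectrum (𝓞 K) → UnitAddTorus (Fin N)),
      (∀ v, t v ∈ classes P) →
      (∀ (r : ℕ) (k : Fin r → ℕ), (∀ j, k j ≤ N) → ContAt (wordLT t k) 1) →
      (∀ (r : ℕ) (k : Fin r → ℕ), r ≤ R → (∀ j, k j ≤ N) →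
        ∃ m : ℤ, (m : ℂ) = hm P (chiW k) ∧ PoleAt (wordLT t k) 1 m) →
      ∃ (Γ : ∀ i, AddSubgroup (Fin (P i).r → ℤ)) (a : ∀ i, UnitAddTorus (Fin (P i).r)),
        (∀ i, Adm (P i).r (Γ i) (a i)) ∧
        ∀ σ : ∀ i, Measure (UnitAddTorus (Fin (P i).r)), (∀ i, IsHaarOn (annih (Γ i)) (σ i)) →
          ∀ f : UnitAddTorus (Fin N) → ℝ, Continuous f → Sy f →
            Tendsto (avg fun v => f (t v)) (𝓝[>] 0) (𝓝 (cm P σ a f)) ∧
            ((∀ (r : ℕ) (k : Fin r → ℕ), (∀ j, k j ≤ N) → ∀ τ : ℝ,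
                ContAt (wordLT t k) (1 + τ * Complex.I)) →
              Tendsto (mn fun v => f (t v)) atTop (𝓝 (cm P σ a f))) := by
  obtain ⟨R1, hR1⟩ := hlawS N I P halg
  obtain ⟨R2, hR2⟩ := van_parts hvan hC halg
  have hlaw : LawR P (max R1 R2) := fun ν h1 h2 h3 h4 =>
    hR1 ν h1 h2 h3 fun r k hr hk => h4 r k (hr.trans (le_max_left _ _)) hk
  refine ⟨max R1 R2, hlaw, fun K _ _ t ht0 hcont hpole => ?_⟩
  obtain ⟨ν, hν, hnull, hw, hmatch, hdir, Γ, a, hadm, hform⟩ :=
    dirP him huniq halg hlaw ht0 hcont hpole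
  refine ⟨Γ, a, hadm, fun σ hσ f hf hfs => ⟨?_, fun hc => ?_⟩⟩
  · rw [← hform σ hσ f hf hfs]
    exact hdir f hf hfs
  · rw [← hform σ hσ f hf hfs]
    refine hmn N I P halg K t ht0 ν hν hnull (fun r k hk => ?_) f hf hfs
    obtain ⟨n, h1, h2⟩ := hw r k hk
    rw [h1]
    refine wordT_nat him htaub h2 (fun τ hτ => ?_) (hc r k hk)
    refine hR2 K t ht0 ν hν hw (fun r k hr hk => hmatch r k (hr.trans (le_max_right _ _)) hk) τ hτ
      (fun r k hk => ?_) (chiW k) (continuous_chiW k) (chiW_sy k)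
    obtain ⟨m, -, h3⟩ := wordT_mean him (hc r k hk τ)
    exact ⟨m, h3⟩

end

end Pool.Agent.Y798.OG
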